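import Pool.Agent.Helper41.Hk.Op

set_option autoImplicit false

/-!
# Hankel determinants kill products of few functions of Hankel type
-/

open MvPolynomial

namespace Pool.Agent.Helper41.Hk

section
variable {σ : Type*}

lemma pderiv_prod {ι : Type*} [DecidableEq ι] (S : Finset ι) (h : ι → MvPolynomial σ ℂ) (i : σ) :
    pderiv i (∏ l ∈ S, h l) = ∑ l0 ∈ S, ∏ l ∈ S, (if l = l0 then pderiv i (h l) else h l) := by
  induction S using Finset.induction_on with
  | empty => simp
  | insert a S ha ih =>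
    rw [Finset.prod_insert ha, pderiv_mul, ih, Finset.sum_insert ha, Finset.prod_insert ha,
      if_pos rfl, Finset.mul_sum]
    congr 1
    · congr 1
      refine Finset.prod_congr rfl fun l hl => ?_
      rw [if_neg]
      rintro rfl
      exact ha hl
    · refine Finset.sum_congr rfl fun l0 hl0 => ?_
      rw [Finset.prod_insert ha, if_neg]
      rintro rfl
      exact ha hl0

lemma leibniz {s : ℕ} (f : Fin s → MvPolynomial σ ℂ) (m : ℕ) (c : Fin m → σ) :
    ap (∏ i, X (c i)) (∏ l, f l) =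
      ∑ g : Fin m → Fin s, ∏ l, ap (∏ i, if g i = l then X (c i) else 1) (f l) := by
  induction m with
  | zero =>
    rw [Finset.univ_eq_empty, Finset.prod_empty, ap_one, Fintype.sum_unique]
    refine Finset.prod_congr rfl fun l _ => ?_
    rw [Finset.prod_empty, ap_one]
  | succ m ih =>
    rw [Fin.prod_univ_succ, ap_mul, ih (fun i => c i.succ), ap_X, map_sum,
      ← (Fin.consEquiv (fun _ : Fin (m + 1) => Fin s)).sum_comp, Fintype.sum_prod_type,
      Finset.sum_comm]
    refine Finset.sum_congr rfl fun g _ => ?_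
    rw [pderiv_prod]
    refine Finset.sum_congr rfl fun l0 _ => ?_
    refine Finset.prod_congr rfl fun l _ => ?_
    rw [Fin.prod_univ_succ, ap_mul]
    simp only [Fin.consEquiv_apply, Fin.cons_zero, Fin.cons_succ]
    by_cases h : l = l0
    · subst h
      rw [if_pos rfl, if_pos rfl, ap_X]
    · rw [if_neg h, if_neg (Ne.symm h), ap_one]

/-- Functions of Hankel type: second derivatives in the directions `v a`, `v b` with `a, b ≤ B`
depend only on `a + b`. -/
def HT (v : ℕ → σ) (B : ℕ) : Submodule ℂ (MvPolynomial σ ℂ) where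
  carrier := {f | ∀ a b a' b', a ≤ B → b ≤ B → a' ≤ B → b' ≤ B → a + b = a' + b' →
    pderiv (v a) (pderiv (v b) f) = pderiv (v a') (pderiv (v b') f)}
  add_mem' := by
    intro f g hf hg a b a' b' h1 h2 h3 h4 h5
    rw [map_add, map_add, map_add, map_add, hf a b a' b' h1 h2 h3 h4 h5,
      hg a b a' b' h1 h2 h3 h4 h5]
  zero_mem' := by
    intro a b a' b' _ _ _ _ _
    simp
  smul_mem' := by
    intro c f hf a b a' b' h1 h2 h3 h4 h5
    rw [Derivation.map_smul, Derivation.map_smul, Derivation.map_smul, Derivation.map_smul,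
      hf a b a' b' h1 h2 h3 h4 h5]

lemma one_mem_HT (v : ℕ → σ) (B : ℕ) : (1 : MvPolynomial σ ℂ) ∈ HT v B := by
  intro a b a' b' _ _ _ _ _
  rw [pderiv_one, pderiv_one, map_zero, map_zero]

lemma HT_pow_mono (v : ℕ → σ) (B : ℕ) {s t : ℕ} (h : s ≤ t) : HT v B ^ s ≤ HT v B ^ t := by
  obtain ⟨r, rfl⟩ := Nat.exists_eq_add_of_le h
  rw [pow_add]
  intro f hf
  have h1 : (1 : MvPolynomial σ ℂ) ∈ HT v B ^ r := by
    have := Submodule.pow_mem_pow (HT v B) (one_mem_HT v B) r
    rwa [one_pow] at this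
  have := Submodule.mul_mem_mul hf h1
  rwa [mul_one] at this

/-- The Hankel determinant. -/
noncomputable def hk (v : ℕ → σ) (m : ℕ) : MvPolynomial σ ℂ :=
  Matrix.det (Matrix.of fun i j : Fin m => (X (v (i.val + j.val)) : MvPolynomial σ ℂ))

lemma two_eq (v : ℕ → σ) (B : ℕ) {f : MvPolynomial σ ℂ} (hf : f ∈ HT v B) {a b a' b' : ℕ}
    (h1 : a ≤ B) (h2 : b ≤ B) (h3 : a' ≤ B) (h4 : b' ≤ B) (h5 : a + b = a' + b')
    (q : MvPolynomial σ ℂ) :
    ap (X (v a) * (X (v b) * q)) f = ap (X (v a') * (X (v b') * q)) f := by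
  have e1 : X (v a) * (X (v b) * q) = q * (X (v a) * X (v b)) := by ring
  have e2 : X (v a') * (X (v b') * q) = q * (X (v a') * X (v b')) := by ring
  rw [e1, e2, ap_mul, ap_mul, ap_mul, ap_mul, ap_X, ap_X, ap_X, ap_X, hf a b a' b' h1 h2 h3 h4 h5]

lemma key_eq (v : ℕ → σ) (B : ℕ) {f : MvPolynomial σ ℂ} (hf : f ∈ HT v B) {m : ℕ}
    (T T' : Fin m → MvPolynomial σ ℂ) (i0 i1 : Fin m) (h01 : i0 ≠ i1) {a b a' b' : ℕ}
    (h1 : a ≤ B) (h2 : b ≤ B) (h3 : a' ≤ B) (h4 : b' ≤ B) (h5 : a + b = a' + b')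
    (hT0 : T i0 = X (v a)) (hT1 : T i1 = X (v b)) (hT0' : T' i0 = X (v a'))
    (hT1' : T' i1 = X (v b')) (hT : ∀ i, i ≠ i0 → i ≠ i1 → T i = T' i) :
    ap (∏ i, T i) f = ap (∏ i, T' i) f := by
  have hm : i1 ∈ Finset.univ.erase i0 := Finset.mem_erase.mpr ⟨Ne.symm h01, Finset.mem_univ _⟩
  rw [← Finset.mul_prod_erase Finset.univ T (Finset.mem_univ i0),
    ← Finset.mul_prod_erase Finset.univ T' (Finset.mem_univ i0),
    ← Finset.mul_prod_erase _ T hm, ← Finset.mul_prod_erase _ T' hm, hT0, hT1, hT0', hT1',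
    two_eq v B hf h1 h2 h3 h4 h5]
  have : ∏ x ∈ (Finset.univ.erase i0).erase i1, T x = ∏ x ∈ (Finset.univ.erase i0).erase i1, T' x := by
    refine Finset.prod_congr rfl fun i hi => ?_
    rw [Finset.mem_erase, Finset.mem_erase] at hi
    exact hT i hi.2.1 hi.1
  rw [this]

lemma hk_kills_prod (v : ℕ → σ) (m s : ℕ) (hs : s < m) (f : Fin s → MvPolynomial σ ℂ)
    (hf : ∀ l, f l ∈ HT v (2 * m - 2)) : ap (hk v m) (∏ l, f l) = 0 := by
  unfold hk
  rw [Matrix.det_apply', ap_sum]
  have h1 : ∀ τ : Equiv.Perm (Fin m), ap (((Equiv.Perm.sign τ : ℤ) : MvPolynomial σ ℂ) *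
      ∏ i, (Matrix.of fun i j : Fin m => (X (v (i.val + j.val)) : MvPolynomial σ ℂ)) (τ i) i)
      (∏ l, f l) = ∑ g : Fin m → Fin s, ((Equiv.Perm.sign τ : ℤ) : MvPolynomial σ ℂ) *
        ∏ l, ap (∏ i, if g i = l then X (v ((τ i).val + i.val)) else 1) (f l) := by
    intro τ
    have e1 : ((Equiv.Perm.sign τ : ℤ) : MvPolynomial σ ℂ) = C ((Equiv.Perm.sign τ : ℤ) : ℂ) := by
      simp
    rw [ap_mul]
    simp only [Matrix.of_apply]
    rw [leibniz f m (fun i => v ((τ i).val + i.val)), e1, ap_C, Algebra.smul_def, ← Finset.mul_sum]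
    rfl
  rw [Finset.sum_congr rfl fun τ _ => h1 τ, Finset.sum_comm]
  refine Finset.sum_eq_zero fun g _ => ?_
  obtain ⟨i0, i1, h01, hg⟩ := Fintype.exists_ne_map_eq_of_card_lt g (by simpa using hs)
  refine Finset.sum_involution (fun τ _ => τ * Equiv.swap i0 i1) ?_ ?_ ?_ ?_
  · intro τ _
    have h2 : ∀ l, ap (∏ i, if g i = l then X (v ((τ i).val + i.val)) else 1) (f l) =
        ap (∏ i, if g i = l then X (v (((τ * Equiv.swap i0 i1) i).val + i.val)) else 1) (f l) := by
      intro l
      by_cases hl : g i0 = l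
      · have hl1 : g i1 = l := hg ▸ hl
        have b0 := (τ i0).isLt
        have b1 := (τ i1).isLt
        have b2 := i0.isLt
        have b3 := i1.isLt
        refine key_eq v (2 * m - 2) (hf l) _ _ i0 i1 h01
          (a := (τ i0).val + i0.val) (b := (τ i1).val + i1.val)
          (a' := (τ i1).val + i0.val) (b' := (τ i0).val + i1.val)
          (by omega) (by omega) (by omega) (by omega) (by omega) ?_ ?_ ?_ ?_ ?_
        · rw [if_pos hl]
        · rw [if_pos hl1]
        · rw [if_pos hl, Equiv.Perm.mul_apply, Equiv.swap_apply_left]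
        · rw [if_pos hl1, Equiv.Perm.mul_apply, Equiv.swap_apply_right]
        · intro i hi0 hi1
          rw [Equiv.Perm.mul_apply, Equiv.swap_apply_of_ne_of_ne hi0 hi1]
      · have hl1 : ¬ g i1 = l := hg ▸ hl
        have : (fun i => if g i = l then (X (v ((τ i).val + i.val)) : MvPolynomial σ ℂ) else 1) =
            (fun i => if g i = l then
              X (v (((τ * Equiv.swap i0 i1) i).val + i.val)) else 1) := by
          funext i
          by_cases hi0 : i = i0
          · subst hi0; rw [if_neg hl, if_neg hl]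
          by_cases hi1 : i = i1
          · subst hi1; rw [if_neg hl1, if_neg hl1]
          rw [Equiv.Perm.mul_apply, Equiv.swap_apply_of_ne_of_ne hi0 hi1]
        simp only [this]
    rw [Finset.prod_congr rfl fun l _ => h2 l, Equiv.Perm.sign_mul, Equiv.Perm.sign_swap h01]
    push_cast
    ring
  · intro τ _ _ h
    have := congrArg (fun e : Equiv.Perm (Fin m) => τ⁻¹ * e) h
    simp only [inv_mul_cancel_left, inv_mul_cancel] at this
    have h3 := congrArg (fun e : Equiv.Perm (Fin m) => e i0) this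
    simp only [Equiv.swap_apply_left, Equiv.Perm.one_apply] at h3
    exact h01 h3.symm
  · intro τ _
    exact Finset.mem_univ _
  · intro τ _
    rw [mul_assoc, Equiv.swap_mul_self, mul_one]

theorem hk_kills (v : ℕ → σ) (m s : ℕ) (hs : s < m) {f : MvPolynomial σ ℂ}
    (hf : f ∈ HT v (2 * m - 2) ^ s) : ap (hk v m) f = 0 := by
  rw [Submodule.pow_eq_span_pow_set] at hf
  induction hf using Submodule.span_induction with
  | mem x hx =>
    obtain ⟨g, hg, rfl⟩ := Set.mem_pow_iff_prod.mp hx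
    exact hk_kills_prod v m s hs g hg
  | zero => exact map_zero _
  | add x y _ _ hx hy => rw [map_add, hx, hy, add_zero]
  | smul c x _ hx => rw [map_smul, hx, smul_zero]

end

end Pool.Agent.Helper41.Hk
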