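import Pool.Agent.Helper41.Hk.Main

set_option autoImplicit false

/-!
# The lower bound for the degrees of the forms killing the cyclic product
-/

open MvPolynomial

namespace Pool.Agent.Helper41.Hk

section
variable {N : ℕ}

/-- A linear form. -/
noncomputable def lf (a : Fin N → ℂ) : MvPolynomial (Fin N) ℂ := ∑ i, C (a i) * X i

/-- The directional derivative. -/
noncomputable def dir (a : Fin N → ℂ) (q : MvPolynomial (Fin N) ℂ) : MvPolynomial (Fin N) ℂ :=
  ∑ i, C (a i) * pderiv i q

lemma pderiv_lf (a : Fin N → ℂ) (i : Fin N) : pderiv i (lf a) = C (a i) := by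
  classical
  unfold lf
  rw [map_sum, Finset.sum_eq_single i]
  · rw [pderiv_C_mul, pderiv_X_self, mul_one]
  · intro j _ hj
    rw [pderiv_C_mul, pderiv_X_of_ne hj, mul_zero]
  · intro h
    exact absurd (Finset.mem_univ i) h

lemma dir_add (a : Fin N → ℂ) (p q : MvPolynomial (Fin N) ℂ) : dir a (p + q) = dir a p + dir a q := by
  unfold dir
  rw [← Finset.sum_add_distrib]
  refine Finset.sum_congr rfl fun i _ => ?_
  rw [map_add, mul_add]

lemma dir_C (a : Fin N → ℂ) (c : ℂ) : dir a (C c) = 0 := by
  unfold dir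
  refine Finset.sum_eq_zero fun i _ => ?_
  rw [pderiv_C, mul_zero]

lemma dir_mul_X (a : Fin N → ℂ) (q : MvPolynomial (Fin N) ℂ) (i : Fin N) :
    dir a (q * X i) = dir a q * X i + C (a i) * q := by
  classical
  unfold dir
  have h : ∀ j ∈ (Finset.univ : Finset (Fin N)), C (a j) * pderiv j (q * X i) =
      C (a j) * pderiv j q * X i + (if j = i then C (a i) * q else 0) := by
    intro j _
    rw [pderiv_mul]
    split_ifs with hj
    · subst hj
      rw [pderiv_X_self]
      ring
    · rw [pderiv_X_of_ne (Ne.symm hj)]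
      ring
  rw [Finset.sum_congr rfl h, Finset.sum_add_distrib, Finset.sum_mul, Finset.sum_ite_eq',
    if_pos (Finset.mem_univ i)]

lemma dir_zero (a : Fin N → ℂ) : dir a (0 : MvPolynomial (Fin N) ℂ) = 0 := by
  have := dir_C a 0
  rwa [C_0] at this

lemma heis (a : Fin N → ℂ) (q f : MvPolynomial (Fin N) ℂ) :
    ap q (lf a * f) = lf a * ap q f + ap (dir a q) f := by
  induction q using MvPolynomial.induction_on generalizing f with
  | C c =>
    rw [ap_C, ap_C, dir_C, map_zero, LinearMap.zero_apply, add_zero, mul_smul_comm]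
  | add p q hp hq =>
    rw [ap_add, hp, hq, ap_add, dir_add, ap_add]
    ring
  | mul_X q i hq =>
    rw [ap_mul, ap_X, pderiv_mul, pderiv_lf, map_add, hq, dir_mul_X, ap_add, ap_mul, ap_mul, ap_mul,
      ap_X, ap_C, ← smul_eq_C_mul, map_smul]
    ring

lemma dir_homog (a : Fin N → ℂ) {q : MvPolynomial (Fin N) ℂ} {k : ℕ} (h : q.IsHomogeneous k) :
    (dir a q).IsHomogeneous (k - 1) := by
  unfold dir
  refine IsHomogeneous.sum _ _ _ fun i _ => ?_
  have := (isHomogeneous_C (Fin N) (a i)).mul (h.pderiv (i := i))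
  rwa [zero_add] at this

/-- Iterated directional derivatives. -/
noncomputable def dirs (L : List (Fin N → ℂ)) (q : MvPolynomial (Fin N) ℂ) :
    MvPolynomial (Fin N) ℂ := L.foldl (fun q a => dir a q) q

lemma dirs_cons (a : Fin N → ℂ) (L : List (Fin N → ℂ)) (q : MvPolynomial (Fin N) ℂ) :
    dirs (a :: L) q = dirs L (dir a q) := rfl

lemma dirs_append (L : List (Fin N → ℂ)) (a : Fin N → ℂ) (q : MvPolynomial (Fin N) ℂ) :
    dirs (L ++ [a]) q = dir a (dirs L q) := by
  unfold dirs
  rw [List.foldl_append]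
  rfl

lemma dirs_homog (L : List (Fin N → ℂ)) {q : MvPolynomial (Fin N) ℂ} {k : ℕ}
    (h : q.IsHomogeneous k) : (dirs L q).IsHomogeneous (k - L.length) := by
  induction L generalizing q k with
  | nil => exact h
  | cons a L ih =>
    rw [dirs_cons, List.length_cons]
    have := ih (dir_homog a h)
    have e : k - 1 - L.length = k - (L.length + 1) := by omega
    rwa [e] at this

lemma ev_ap (x : Fin N → ℂ) (L : List (Fin N → ℂ)) (hL : ∀ a ∈ L, eval x (lf a) = 0)
    (q f : MvPolynomial (Fin N) ℂ) :
    eval x (ap q ((L.map lf).prod * f)) = eval x (ap (dirs L q) f) := by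
  induction L generalizing q with
  | nil => rw [List.map_nil, List.prod_nil, one_mul]; rfl
  | cons a L ih =>
    rw [List.map_cons, List.prod_cons, mul_assoc, heis, map_add, map_mul,
      hL a (List.mem_cons_self ..), zero_mul, zero_add, dirs_cons,
      ih (fun b hb => hL b (List.mem_cons_of_mem _ hb))]

lemma zero_of_homog_zero {p : MvPolynomial (Fin N) ℂ} (h : p.IsHomogeneous 0) :
    p = C (coeff 0 p) := by
  have := h.totalDegree_le
  exact totalDegree_eq_zero_iff_eq_C.mp (Nat.le_zero.mp this)

/-- The main step: the iterated derivatives of a form killing the product. -/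
lemma dirs_zero (x : Fin N → ℂ) (L : List (Fin N → ℂ)) (hL : ∀ a ∈ L, eval x (lf a) = 0)
    (q f : MvPolynomial (Fin N) ℂ) (hf : eval x f ≠ 0) (hq : q.IsHomogeneous L.length)
    (h : ap q ((L.map lf).prod * f) = 0) : dirs L q = 0 := by
  have h1 := ev_ap x L hL q f
  rw [h, map_zero] at h1
  have h2 := dirs_homog L hq
  rw [Nat.sub_self] at h2
  have h3 := zero_of_homog_zero h2
  rw [h3, ap_C, smul_eval] at h1
  rcases mul_eq_zero.mp h1.symm with h4 | h4
  · rw [h3, h4, C_0]
  · exact absurd h4 hf

/-- A form of positive degree all whose derivatives in `N` spanning directions vanish is zero. -/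
lemma zero_of_dirs {p : MvPolynomial (Fin N) ℂ} {k : ℕ} (hp : p.IsHomogeneous k) (hk : 1 ≤ k)
    (T : Finset ℂ) (hT : N ≤ T.card) (h : ∀ t ∈ T, dir (fun i => t ^ i.val) p = 0) : p = 0 := by
  have h1 : ∀ i, pderiv i p = 0 := by
    intro i
    ext c
    rw [coeff_zero]
    set P : Polynomial ℂ := ∑ j : Fin N, Polynomial.C (coeff c (pderiv j p)) * Polynomial.X ^ j.val
      with hP
    have hc : ∀ j : Fin N, P.coeff j.val = coeff c (pderiv j p) := by
      intro j
      rw [hP, Polynomial.finsetSum_coeff, Finset.sum_eq_single j]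
      · rw [Polynomial.coeff_C_mul_X_pow, if_pos rfl]
      · intro b _ hb
        rw [Polynomial.coeff_C_mul_X_pow, if_neg]
        intro h'
        exact hb (Fin.ext h'.symm)
      · intro h'
        exact absurd (Finset.mem_univ j) h'
    have hdeg : P.degree < T.card := by
      refine lt_of_lt_of_le ?_ (Nat.cast_le.mpr hT)
      rw [hP]
      refine Polynomial.degree_sum_fin_lt (fun j => coeff c (pderiv j p))
    have hP0 : P = 0 := by
      refine Polynomial.eq_zero_of_degree_lt_of_eval_finset_eq_zero T hdeg ?_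
      intro t ht
      have h2 := congrArg (coeff c) (h t ht)
      unfold dir at h2
      rw [coeff_zero, coeff_sum] at h2
      rw [hP, Polynomial.eval_finsetSum, ← h2]
      refine Finset.sum_congr rfl fun j _ => ?_
      rw [coeff_C_mul, Polynomial.eval_mul, Polynomial.eval_C, Polynomial.eval_pow,
        Polynomial.eval_X, mul_comm]
    rw [← hc i, hP0, Polynomial.coeff_zero]
  have h2 := hp.sum_X_mul_pderiv
  have h3 : ∑ i : Fin N, X i * pderiv i p = 0 := Finset.sum_eq_zero fun i _ => by
    rw [h1 i, mul_zero]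
  rw [h3] at h2
  have h4 : (k : ℂ) • p = 0 := by
    rw [Nat.cast_smul_eq_nsmul ℂ k p]
    exact h2.symm
  exact (smul_eq_zero.mp h4).resolve_left (by exact_mod_cast (by omega : k ≠ 0))

/-- The coefficients of the forms of the cyclic arrangement. -/
def pt (N : ℕ) (t : ℂ) : Fin N → ℂ := fun i => t ^ i.val

lemma exists_point (N : ℕ) (S : Finset ℂ) (hS : S.card < N) : ∃ x : Fin N → ℂ,
    ∀ t : ℂ, eval x (lf (pt N t)) = ∏ s ∈ S, (t - s) := by
  set P : Polynomial ℂ := ∏ s ∈ S, (Polynomial.X - Polynomial.C s) with hP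
  have hdeg : P.natDegree < N := by
    rw [hP, Polynomial.natDegree_prod_of_monic _ _ (fun s _ => Polynomial.monic_X_sub_C s)]
    simpa using hS
  refine ⟨fun i => P.coeff i.val, fun t => ?_⟩
  have h1 : P.eval t = ∏ s ∈ S, (t - s) := by
    rw [hP, Polynomial.eval_prod]
    simp
  rw [← h1, Polynomial.eval_eq_sum_range' hdeg, Finset.sum_range]
  unfold lf pt
  rw [map_sum]
  refine Finset.sum_congr rfl fun i _ => ?_
  rw [map_mul, eval_C, eval_X, mul_comm]

/-- The product over a set of parameters. -/
noncomputable def PR (N : ℕ) (T : Finset ℂ) : MvPolynomial (Fin N) ℂ := ∏ t ∈ T, lf (pt N t)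

lemma lower_top (T : Finset ℂ) (q : MvPolynomial (Fin N) ℂ) (L : List ℂ)
    (hN : L.length < N) (hL : L.Nodup) (hLT : ∀ t ∈ L, t ∈ T) (hq : q.IsHomogeneous L.length)
    (h : ap q (PR N T) = 0) : dirs (L.map (pt N)) q = 0 := by
  classical
  obtain ⟨x, hx⟩ := exists_point N L.toFinset (lt_of_le_of_lt (List.toFinset_card_le L) hN)
  refine dirs_zero x (L.map (pt N)) ?_ q (∏ t ∈ T \ L.toFinset, lf (pt N t)) ?_ ?_ ?_
  · intro a ha
    obtain ⟨t, ht, rfl⟩ := List.mem_map.mp ha
    rw [hx, Finset.prod_eq_zero (List.mem_toFinset.mpr ht) (sub_self t)]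
  · rw [map_prod, Finset.prod_ne_zero_iff]
    intro t ht
    rw [hx, Finset.prod_ne_zero_iff]
    intro s hs hts
    rw [Finset.mem_sdiff] at ht
    rw [sub_eq_zero.mp hts] at ht
    exact ht.2 hs
  · rwa [List.length_map]
  · have h1 : ((L.map (pt N)).map lf).prod = ∏ t ∈ L.toFinset, lf (pt N t) := by
      rw [List.map_map, List.prod_toFinset _ hL]
      rfl
    rw [h1, mul_comm]
    have hsub : L.toFinset ⊆ T := fun t ht => hLT t (List.mem_toFinset.mp ht)
    rw [Finset.prod_sdiff hsub]
    exact h

lemma lower_all (T : Finset ℂ) (q : MvPolynomial (Fin N) ℂ) (k : ℕ) (hk : k < N)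
    (hT : N + k ≤ T.card + 1) (hq : q.IsHomogeneous k) (h : ap q (PR N T) = 0) (e : ℕ) :
    ∀ L : List ℂ, L.Nodup → (∀ t ∈ L, t ∈ T) → L.length + e = k → dirs (L.map (pt N)) q = 0 := by
  classical
  induction e with
  | zero =>
    intro L h1 h2 h3
    rw [add_zero] at h3
    subst h3
    exact lower_top T q L hk h1 h2 hq h
  | succ e ih =>
    intro L h1 h2 h3
    have h4 := dirs_homog (L.map (pt N)) hq
    rw [List.length_map] at h4
    refine zero_of_dirs h4 (by omega) (T \ L.toFinset) ?_ ?_
    · rw [Finset.card_sdiff_of_subset (fun t ht => h2 t (List.mem_toFinset.mp ht)),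
        List.toFinset_card_of_nodup h1]
      omega
    · intro t ht
      rw [Finset.mem_sdiff, List.mem_toFinset] at ht
      have h5 := ih (L ++ [t]) (List.nodup_append.mpr ⟨h1, List.nodup_singleton t, by
        intro a ha b hb hab
        rw [List.mem_singleton] at hb
        subst hb
        subst hab
        exact ht.2 ha⟩) (by
          intro s hs
          rcases List.mem_append.mp hs with h6 | h6
          · exact h2 s h6
          · rw [List.mem_singleton] at h6
            rw [h6]
            exact ht.1) (by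
          rw [List.length_append, List.length_singleton]
          omega)
      rw [List.map_append, List.map_singleton, dirs_append] at h5
      exact h5

theorem lower (T : Finset ℂ) (q : MvPolynomial (Fin N) ℂ) (k : ℕ) (hk : k < N)
    (hT : N + k ≤ T.card + 1) (hq : q.IsHomogeneous k) (h : ap q (PR N T) = 0) : q = 0 :=
  lower_all T q k hk hT hq h k [] List.nodup_nil (fun t ht => absurd ht List.not_mem_nil)
    (by rw [List.length_nil, zero_add])

end

end Pool.Agent.Helper41.Hk
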