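import Pool.Agent.Helper41.Hk.Series

set_option autoImplicit false

/-!
# The cyclic product is killed by the product of two Hankel determinants
-/

open MvPolynomial

namespace Pool.Agent.Helper41.Hk

section
variable {σ : Type*}

lemma ap_prod_mul {m : ℕ} (c : Fin m → σ) (g f : MvPolynomial σ ℂ)
    (hg : ∀ i, pderiv (c i) g = 0) : ap (∏ i, X (c i)) (g * f) = g * ap (∏ i, X (c i)) f := by
  induction m with
  | zero => rw [Finset.univ_eq_empty, Finset.prod_empty, ap_one, ap_one]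
  | succ m ih =>
    rw [Fin.prod_univ_succ, ap_mul, ap_mul, ih (fun i => c i.succ) (fun i => hg _), ap_X, ap_X,
      pderiv_mul, hg, zero_mul, zero_add]

lemma ap_hk_mul (v : ℕ → σ) (m : ℕ) (g f : MvPolynomial σ ℂ)
    (hg : ∀ a, a ≤ 2 * m - 2 → pderiv (v a) g = 0) : ap (hk v m) (g * f) = g * ap (hk v m) f := by
  unfold hk
  rw [Matrix.det_apply', ap_sum, ap_sum, Finset.mul_sum]
  refine Finset.sum_congr rfl fun τ _ => ?_
  simp only [Matrix.of_apply]
  have e1 : ((Equiv.Perm.sign τ : ℤ) : MvPolynomial σ ℂ) = C ((Equiv.Perm.sign τ : ℤ) : ℂ) := by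
    simp
  rw [e1, ap_mul, ap_mul, ap_C, ap_C, ap_prod_mul (fun i => v ((τ i).val + i.val)) g f]
  · rw [mul_smul_comm]
  · intro i
    have b0 := (τ i).isLt
    have b1 := i.isLt
    exact hg _ (by omega)

variable (y : ℕ → σ) (n : ℕ)

/-- One factor of the cyclic product, with a formal parameter. -/
noncomputable def fac (c : ℂ) : Polynomial (MvPolynomial σ ℂ) :=
  ∑ i ∈ Finset.range (n + 1), Polynomial.C (C (c ^ i) * X (y i)) * Polynomial.X ^ i

lemma coeff_fac (c : ℂ) (j : ℕ) : (fac y n c).coeff j = if j ≤ n then C (c ^ j) * X (y j) else 0 := by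
  unfold fac
  rw [Polynomial.finset_sum_coeff]
  simp only [Polynomial.coeff_C_mul_X_pow]
  rw [Finset.sum_ite_eq]
  simp only [Finset.mem_range, Nat.lt_succ_iff]

lemma fac_coe (c : ℂ) : ((fac y n c : Polynomial (MvPolynomial σ ℂ)) :
    PowerSeries (MvPolynomial σ ℂ)) = PowerSeries.rescale (C c) (PP y n) := by
  ext1 j
  rw [Polynomial.coeff_coe, coeff_fac, PowerSeries.coeff_rescale, PP, PowerSeries.coeff_mk]
  split_ifs
  · rw [C_pow]
  · rw [mul_zero]

/-- The cyclic product with a formal parameter. -/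
noncomputable def cyc (d : ℕ) (ζ : ℂ) : Polynomial (MvPolynomial σ ℂ) :=
  ∏ k ∈ Finset.range d, fac y n (ζ ^ k)

lemma natDegree_fac (c : ℂ) : (fac y n c).natDegree ≤ n := by
  rw [Polynomial.natDegree_le_iff_coeff_eq_zero]
  intro j hj
  rw [coeff_fac, if_neg (by omega)]

lemma natDegree_cyc (d : ℕ) (ζ : ℂ) : (cyc y n d ζ).natDegree ≤ n * d := by
  unfold cyc
  refine (Polynomial.natDegree_prod_le _ _).trans ?_
  refine (Finset.sum_le_sum fun k _ => natDegree_fac y n (ζ ^ k)).trans ?_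
  rw [Finset.sum_const, Finset.card_range, smul_eq_mul, mul_comm]

theorem small_coeff (hy : ∀ i j, i ≤ n → j ≤ n → y i = y j → i = j) (m : ℕ) (hm : 1 ≤ m)
    (hn : n = 2 * m - 1) (d : ℕ) (hd : 1 ≤ d) (ζ : ℂ) (hζ : IsPrimitiveRoot ζ d) (j : ℕ)
    (hj : j < m * d) : ap (hk (fun a => y (n - a)) m) ((cyc y n d ζ).coeff j) = 0 := by
  have h1 : ((cyc y n d ζ : Polynomial (MvPolynomial σ ℂ)) : PowerSeries (MvPolynomial σ ℂ)) =
      ∏ k ∈ Finset.range d, PowerSeries.rescale (C (ζ ^ k)) (PP y n) := by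
    unfold cyc
    rw [← Polynomial.coeToPowerSeries.ringHom_apply, map_prod]
    refine Finset.prod_congr rfl fun k _ => ?_
    rw [Polynomial.coeToPowerSeries.ringHom_apply, fac_coe]
  have h2 : PowerSeries.rescale (X (y 0)) (∏ k ∈ Finset.range d,
      PowerSeries.rescale (C (ζ ^ k)) (PP y n)) = PowerSeries.C (X (y 0) ^ d) *
      ∏ k ∈ Finset.range d, PowerSeries.rescale (C (ζ ^ k)) (QQ y n) := by
    rw [map_prod]
    have h3 : ∀ k ∈ Finset.range d, PowerSeries.rescale (X (y 0))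
        (PowerSeries.rescale (C (ζ ^ k)) (PP y n)) =
        PowerSeries.C (X (y 0)) * PowerSeries.rescale (C (ζ ^ k)) (QQ y n) := by
      intro k _
      rw [PowerSeries.rescale_rescale, mul_comm, ← PowerSeries.rescale_rescale, rescale_PP, map_mul]
      congr 1
      ext1 i
      rw [PowerSeries.coeff_rescale, PowerSeries.coeff_C]
      split_ifs with h
      · rw [h, pow_zero, one_mul]
      · rw [mul_zero]
    rw [Finset.prod_congr rfl h3, Finset.prod_mul_distrib, Finset.prod_const, Finset.card_range,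
      map_pow]
  have h3 := congrArg (PowerSeries.coeff j) h2
  rw [PowerSeries.coeff_rescale, PowerSeries.coeff_C_mul, ← h1, Polynomial.coeff_coe] at h3
  have hB : n - 1 = 2 * m - 2 := by omega
  have h4 := gam_mem y n hy (by omega) d hd ζ hζ j
  rw [hB] at h4
  have h5 := hk_kills (fun a => y (n - a)) m (j / d) ((Nat.div_lt_iff_lt_mul hd).mpr hj) h4
  have hX : ∀ a, a ≤ 2 * m - 2 → ∀ e : ℕ, pderiv (y (n - a)) (X (y 0) ^ e : MvPolynomial σ ℂ) = 0 := by
    intro a ha e
    have h0 : y 0 ≠ y (n - a) := fun h => by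
      have := hy 0 (n - a) (Nat.zero_le n) (by omega) h
      omega
    rw [pderiv_pow, pderiv_X_of_ne h0, mul_zero]
  have h6 := congrArg (ap (hk (fun a => y (n - a)) m)) h3
  rw [ap_hk_mul _ _ _ _ (fun a ha => hX a ha j), ap_hk_mul _ _ _ _ (fun a ha => hX a ha d), h5,
    mul_zero] at h6
  exact (mul_eq_zero.mp h6).resolve_left (pow_ne_zero _ (X_ne_zero _))

lemma reflect_fac (c c' : ℂ) (hc : c * c' = 1) : Polynomial.reflect n (fac y n c) =
    Polynomial.C (C (c ^ n)) * fac (fun i => y (n - i)) n c' := by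
  ext1 j
  rw [Polynomial.coeff_reflect, Polynomial.coeff_C_mul, coeff_fac, coeff_fac]
  by_cases hj : j ≤ n
  · rw [Polynomial.revAt_le hj, if_pos (Nat.sub_le _ _), if_pos hj, ← mul_assoc, ← C_mul]
    congr 2
    have : c ^ n = c ^ (n - j) * c ^ j := by rw [← pow_add]; congr 1; omega
    rw [this, mul_assoc, ← mul_pow, hc, one_pow, mul_one]
  · rw [Polynomial.revAt_eq_self_of_lt (by omega), if_neg hj, if_neg hj, mul_zero]

lemma reflect_cyc (d : ℕ) (ζ ζ' : ℂ) (h : ζ * ζ' = 1) : Polynomial.reflect (n * d) (cyc y n d ζ) =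
    Polynomial.C (C (∏ k ∈ Finset.range d, (ζ ^ k) ^ n)) * cyc (fun i => y (n - i)) n d ζ' := by
  induction d with
  | zero => simp [cyc]
  | succ d ih =>
    have e1 : cyc y n (d + 1) ζ = cyc y n d ζ * fac y n (ζ ^ d) := Finset.prod_range_succ _ _
    have e2 : cyc (fun i => y (n - i)) n (d + 1) ζ' =
      cyc (fun i => y (n - i)) n d ζ' * fac (fun i => y (n - i)) n (ζ' ^ d) :=
      Finset.prod_range_succ _ _
    rw [e1, e2, Nat.mul_succ, Polynomial.reflect_mul _ _ (natDegree_cyc y n d ζ)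
      (natDegree_fac y n _), ih, reflect_fac y n (ζ ^ d) (ζ' ^ d) (by rw [← mul_pow, h, one_pow]),
      Finset.prod_range_succ, C_mul, Polynomial.C_mul]
    ring

theorem large_coeff (hy : ∀ i j, i ≤ n → j ≤ n → y i = y j → i = j) (m : ℕ) (hm : 1 ≤ m)
    (hn : n = 2 * m - 1) (d : ℕ) (hd : 1 ≤ d) (ζ : ℂ) (hζ : IsPrimitiveRoot ζ d) (j : ℕ)
    (hj : j ≤ n * d) (hj2 : n * d - j < m * d) : ap (hk y m) ((cyc y n d ζ).coeff j) = 0 := by
  have hζ0 : ζ ≠ 0 := hζ.ne_zero (by omega)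
  have h1 := reflect_cyc y n d ζ ζ⁻¹ (mul_inv_cancel₀ hζ0)
  have h2 := congrArg (fun p => Polynomial.coeff p (n * d - j)) h1
  rw [Polynomial.coeff_reflect, Polynomial.revAt_le (Nat.sub_le _ _), Polynomial.coeff_C_mul,
    Nat.sub_sub_self hj] at h2
  have h3 := small_coeff (fun i => y (n - i)) n (fun i j hi hj h => by
    have := hy (n - i) (n - j) (Nat.sub_le _ _) (Nat.sub_le _ _) h
    omega) m hm hn d hd ζ⁻¹ hζ.inv (n * d - j) hj2
  have h4 : hk (fun a => y (n - (n - a))) m = hk y m := by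
    unfold hk
    congr 1
    ext1 a b
    have b0 := a.isLt
    have b1 := b.isLt
    simp only [Matrix.of_apply]
    congr 2
    omega
  rw [h4] at h3
  rw [h2, ← smul_eq_C_mul, map_smul, h3, smul_zero]

theorem kills (hy : ∀ i j, i ≤ n → j ≤ n → y i = y j → i = j) (m : ℕ) (hm : 1 ≤ m)
    (hn : n = 2 * m - 1) (d : ℕ) (hd : 1 ≤ d) (ζ : ℂ) (hζ : IsPrimitiveRoot ζ d) :
    ap (hk y m * hk (fun a => y (n - a)) m)
      (∏ k ∈ Finset.range d, ∑ i ∈ Finset.range (n + 1), C ((ζ ^ k) ^ i) * X (y i)) = 0 := by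
  have h1 : (∏ k ∈ Finset.range d, ∑ i ∈ Finset.range (n + 1), C ((ζ ^ k) ^ i) * X (y i) :
      MvPolynomial σ ℂ) = Polynomial.eval 1 (cyc y n d ζ) := by
    unfold cyc
    rw [Polynomial.eval_prod]
    refine Finset.prod_congr rfl fun k _ => ?_
    unfold fac
    rw [Polynomial.eval_finsetSum]
    refine Finset.sum_congr rfl fun i _ => ?_
    simp
  have h2 : (n * d : ℕ) < n * d + 1 := Nat.lt_succ_self _
  rw [h1, Polynomial.eval_eq_sum_range' (lt_of_le_of_lt (natDegree_cyc y n d ζ) h2), map_sum]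
  refine Finset.sum_eq_zero fun j hj => ?_
  rw [Finset.mem_range] at hj
  rw [one_pow, mul_one]
  by_cases hjm : j < m * d
  · rw [ap_mul, small_coeff y n hy m hm hn d hd ζ hζ j hjm, map_zero]
  · rw [mul_comm, ap_mul, large_coeff y n hy m hm hn d hd ζ hζ j (by omega) ?_, map_zero]
    have : n * d + d = 2 * (m * d) := by
      have : n + 1 = 2 * m := by omega
      calc n * d + d = (n + 1) * d := by ring
        _ = 2 * (m * d) := by rw [this]; ring
    omega

end

end Pool.Agent.Helper41.Hk
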