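import Pool.Agent.Helper74.Apol.Special

set_option autoImplicit false

/-!
# The action of polynomials by constant coefficient differential operators
-/

open MvPolynomial

namespace Pool.Agent.Helper41.Hk

section
variable {σ : Type*}

lemma pderiv_comm' (i j : σ) (f : MvPolynomial σ ℂ) :
    pderiv i (pderiv j f) = pderiv j (pderiv i f) := by
  classical
  ext m
  rw [coeff_pderiv, coeff_pderiv, coeff_pderiv, coeff_pderiv]
  have h : m + Finsupp.single i 1 + Finsupp.single j 1 =
      m + Finsupp.single j 1 + Finsupp.single i 1 := add_right_comm _ _ _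
  rw [h]
  by_cases hij : i = j
  · subst hij; rfl
  · have h1 : ((Finsupp.single i 1 : σ →₀ ℕ)) j = 0 := by
      rw [Finsupp.single_apply, if_neg hij]
    have h2 : ((Finsupp.single j 1 : σ →₀ ℕ)) i = 0 := by
      rw [Finsupp.single_apply, if_neg (Ne.symm hij)]
    simp only [Finsupp.add_apply, h1, h2, add_zero]
    ring

/-- The partial derivative as an endomorphism. -/
noncomputable def dd (i : σ) : Module.End ℂ (MvPolynomial σ ℂ) := (pderiv i).toLinearMap

lemma dd_apply (i : σ) (f : MvPolynomial σ ℂ) : dd i f = pderiv i f := rfl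

lemma dd_comm : ∀ a ∈ Set.range (dd (σ := σ)), ∀ b ∈ Set.range (dd (σ := σ)),
    a * b = b * a := by
  rintro _ ⟨i, rfl⟩ _ ⟨j, rfl⟩
  refine LinearMap.ext fun f => ?_
  exact pderiv_comm' i j f

/-- The commutative algebra of operators. -/
noncomputable abbrev DA (σ : Type*) : Subalgebra ℂ (Module.End ℂ (MvPolynomial σ ℂ)) :=
  Algebra.adjoin ℂ (Set.range (dd (σ := σ)))

noncomputable instance : CommRing (DA σ) := Algebra.adjoinCommRingOfComm ℂ dd_comm

/-- The action. -/
noncomputable def ap : MvPolynomial σ ℂ →ₐ[ℂ] Module.End ℂ (MvPolynomial σ ℂ) :=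
  (DA σ).val.comp (aeval (fun i => (⟨dd i, Algebra.subset_adjoin ⟨i, rfl⟩⟩ : DA σ)))

lemma ap_X (i : σ) (f : MvPolynomial σ ℂ) : ap (X i) f = pderiv i f := by
  unfold ap
  rw [AlgHom.comp_apply, aeval_X]
  rfl

lemma ap_C (c : ℂ) (f : MvPolynomial σ ℂ) : ap (C c) f = c • f := by
  rw [← algebraMap_eq, AlgHom.commutes, Module.algebraMap_end_apply]

lemma ap_mul (p q f : MvPolynomial σ ℂ) : ap (p * q) f = ap p (ap q f) := by
  rw [map_mul]; rfl

lemma ap_add (p q f : MvPolynomial σ ℂ) : ap (p + q) f = ap p f + ap q f := by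
  rw [map_add]; rfl

lemma ap_one (f : MvPolynomial σ ℂ) : ap 1 f = f := by
  rw [map_one]; rfl

lemma ap_sum {ι : Type*} (s : Finset ι) (p : ι → MvPolynomial σ ℂ) (f : MvPolynomial σ ℂ) :
    ap (∑ i ∈ s, p i) f = ∑ i ∈ s, ap (p i) f := by
  rw [map_sum, LinearMap.sum_apply]

end

section
variable {N : ℕ}

open Helper74.Apol

lemma fc_add_single (c : Fin N →₀ ℕ) (i : Fin N) :
    fc (c + Finsupp.single i 1) = fc c * ((c i : ℂ) + 1) := by
  unfold fc
  rw [← Finset.mul_prod_erase Finset.univ _ (Finset.mem_univ i),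
    ← Finset.mul_prod_erase Finset.univ (fun j => ((c j).factorial : ℂ)) (Finset.mem_univ i)]
  have h1 : ∀ j ∈ Finset.univ.erase i, (((c + Finsupp.single i 1 : Fin N →₀ ℕ) j).factorial : ℂ) =
      ((c j).factorial : ℂ) := by
    intro j hj
    rw [Finsupp.add_apply, Finsupp.single_apply, if_neg (Finset.ne_of_mem_erase hj).symm, add_zero]
  rw [Finset.prod_congr rfl h1]
  have h2 : (((c + Finsupp.single i 1 : Fin N →₀ ℕ) i).factorial : ℂ) = ((c i : ℂ) + 1) * ((c i).factorial : ℂ) := by
    rw [Finsupp.add_apply, Finsupp.single_eq_same, Nat.factorial_succ]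
    push_cast
    ring
  rw [h2]
  ring

lemma ap_coeff (F p : MvPolynomial (Fin N) ℂ) (c : Fin N →₀ ℕ) :
    fc c * coeff c (ap p F) = Lam F (p * monomial c 1) := by
  induction p using MvPolynomial.induction_on generalizing c with
  | C a =>
    rw [ap_C, C_mul_monomial, Lam_monomial, coeff_smul, hh, smul_eq_mul]
    ring
  | add p q hp hq =>
    rw [ap_add, coeff_add, add_mul, map_add, ← hp, ← hq]
    ring
  | mul_X p i hp =>
    have h1 : p * X i * monomial c 1 = p * monomial (c + Finsupp.single i 1) (1 : ℂ) := by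
      rw [mul_assoc, X, monomial_mul, mul_one, add_comm]
    rw [h1, ← hp, mul_comm p, ap_mul, ap_X, coeff_pderiv, fc_add_single]
    ring

lemma ap_iff (F p : MvPolynomial (Fin N) ℂ) : p ∈ annI F ↔ ap p F = 0 := by
  rw [mem_annI_iff]
  have hfc : ∀ c : Fin N →₀ ℕ, fc c ≠ 0 := by
    intro c
    unfold fc
    rw [Finset.prod_ne_zero_iff]
    intro i _
    exact_mod_cast Nat.factorial_ne_zero _
  constructor
  · intro h
    ext c
    have h1 := ap_coeff F p c
    rw [Lam_mul_monomial F p c p.support (Finset.Subset.refl _), h c] at h1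
    rw [coeff_zero]
    exact (mul_eq_zero.mp h1).resolve_left (hfc c)
  · intro h c
    rw [← Lam_mul_monomial F p c p.support (Finset.Subset.refl _), ← ap_coeff, h, coeff_zero,
      mul_zero]

end

end Pool.Agent.Helper41.Hk
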