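import Pool.Agent.Helper41.Hk.Leib

set_option autoImplicit false

/-!
# The coefficients of the cyclic product are sums of products of few functions of Hankel type
-/

open MvPolynomial

namespace Pool.Agent.Helper41.Hk

section
variable {R : Type*} [CommRing R]

/-- Apply a map to all coefficients. -/
noncomputable def cd (D : R → R) (f : PowerSeries R) : PowerSeries R :=
  PowerSeries.mk fun n => D (PowerSeries.coeff n f)

/-- `z d/dz`. -/
noncomputable def th (f : PowerSeries R) : PowerSeries R :=
  PowerSeries.mk fun n => (n : R) * PowerSeries.coeff n f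

lemma coeff_cd (D : R → R) (f : PowerSeries R) (n : ℕ) :
    PowerSeries.coeff n (cd D f) = D (PowerSeries.coeff n f) := PowerSeries.coeff_mk _ _

lemma coeff_th (f : PowerSeries R) (n : ℕ) :
    PowerSeries.coeff n (th f) = (n : R) * PowerSeries.coeff n f := PowerSeries.coeff_mk _ _

lemma th_mul (f g : PowerSeries R) : th (f * g) = th f * g + f * th g := by
  ext n
  rw [coeff_th, map_add, PowerSeries.coeff_mul, PowerSeries.coeff_mul, PowerSeries.coeff_mul,
    Finset.mul_sum, ← Finset.sum_add_distrib]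
  refine Finset.sum_congr rfl fun x hx => ?_
  rw [coeff_th, coeff_th, ← Finset.HasAntidiagonal.mem_antidiagonal.mp hx]
  push_cast
  ring

lemma th_one : th (1 : PowerSeries R) = 0 := by
  ext n
  rw [coeff_th, PowerSeries.coeff_one, map_zero]
  split_ifs with h
  · rw [h]; simp
  · simp

lemma cd_mul {A : Type*} [CommRing A] [Algebra A R] (D : Derivation A R R) (f g : PowerSeries R) :
    cd D (f * g) = cd D f * g + f * cd D g := by
  ext n
  rw [coeff_cd, map_add, PowerSeries.coeff_mul, PowerSeries.coeff_mul, PowerSeries.coeff_mul,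
    map_sum, ← Finset.sum_add_distrib]
  refine Finset.sum_congr rfl fun x hx => ?_
  rw [coeff_cd, coeff_cd, Derivation.leibniz, smul_eq_mul, smul_eq_mul]
  ring

lemma cd_one {A : Type*} [CommRing A] [Algebra A R] (D : Derivation A R R) :
    cd D (1 : PowerSeries R) = 0 := by
  ext n
  rw [coeff_cd, PowerSeries.coeff_one, map_zero]
  split_ifs with h
  · exact D.map_one_eq_zero
  · exact map_zero D

lemma cd_th {A : Type*} [CommRing A] [Algebra A R] (D : Derivation A R R) (f : PowerSeries R) :
    cd D (th f) = th (cd D f) := by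
  ext n
  rw [coeff_cd, coeff_th, coeff_th, coeff_cd, Derivation.leibniz, Derivation.map_natCast,
    smul_zero, add_zero, smul_eq_mul]

lemma cd_inv {A : Type*} [CommRing A] [Algebra A R] (D : Derivation A R R) {Q H : PowerSeries R}
    (h : Q * H = 1) : cd D H = -(H ^ 2 * cd D Q) := by
  have h1 := cd_mul D Q H
  rw [h, cd_one] at h1
  have h2 : cd D H = (Q * H) * cd D H := by rw [h, one_mul]
  rw [h2]
  linear_combination (-H) * h1 - (0 : PowerSeries R) * h

lemma th_inv {Q H : PowerSeries R} (h : Q * H = 1) : th H = -(H ^ 2 * th Q) := by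
  have h1 := th_mul Q H
  rw [h, th_one] at h1
  have h2 : th H = (Q * H) * th H := by rw [h, one_mul]
  rw [h2]
  linear_combination (-H) * h1 - (0 : PowerSeries R) * h

lemma cd_log {A : Type*} [CommRing A] [Algebra A R] (D : Derivation A R R) {Q H : PowerSeries R}
    (h : Q * H = 1) : cd D (th Q * H) = th (cd D Q * H) := by
  rw [cd_mul, cd_th, cd_inv D h, th_mul, th_inv h]
  ring

lemma cd_cd_log {A : Type*} [CommRing A] [Algebra A R] (D D' : Derivation A R R)
    {Q H : PowerSeries R} (h : Q * H = 1) (h0 : cd D' (cd D Q) = 0) :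
    cd D' (cd D (th Q * H)) = th (-(cd D Q * cd D' Q * H ^ 2)) := by
  rw [cd_log D h, cd_th, cd_mul, cd_inv D' h, h0]
  congr 1
  ring

lemma th_prod {ι : Type*} (S : Finset ι) (Q H : ι → PowerSeries R) (h : ∀ i, Q i * H i = 1) :
    th (∏ i ∈ S, Q i) = (∏ i ∈ S, Q i) * ∑ i ∈ S, th (Q i) * H i := by
  classical
  induction S using Finset.induction_on with
  | empty => simp [th_one]
  | insert a S ha ih =>
    rw [Finset.prod_insert ha, Finset.sum_insert ha, th_mul, ih]
    have h1 := h a
    linear_combination (-(∏ i ∈ S, Q i) * th (Q a)) * h1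

lemma th_rescale (c : R) (f : PowerSeries R) :
    th (PowerSeries.rescale c f) = PowerSeries.rescale c (th f) := by
  ext n
  rw [coeff_th, PowerSeries.coeff_rescale, PowerSeries.coeff_rescale, coeff_th]
  ring

end

section
variable {σ : Type*}

/-- The normalised series. -/
noncomputable def QQ (y : ℕ → σ) (n : ℕ) : PowerSeries (MvPolynomial σ ℂ) :=
  PowerSeries.mk fun i => if i = 0 then 1 else if i ≤ n then X (y i) * X (y 0) ^ (i - 1) else 0

/-- The series of the form. -/
noncomputable def PP (y : ℕ → σ) (n : ℕ) : PowerSeries (MvPolynomial σ ℂ) :=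
  PowerSeries.mk fun i => if i ≤ n then X (y i) else 0

lemma exists_inv (y : ℕ → σ) (n : ℕ) : ∃ H, QQ y n * H = 1 := by
  refine ⟨PowerSeries.invOfUnit (QQ y n) 1, PowerSeries.mul_invOfUnit _ _ ?_⟩
  rw [← PowerSeries.coeff_zero_eq_constantCoeff_apply, QQ, PowerSeries.coeff_mk, if_pos rfl]
  simp

lemma rescale_PP (y : ℕ → σ) (n : ℕ) :
    PowerSeries.rescale (X (y 0)) (PP y n) = PowerSeries.C (X (y 0)) * QQ y n := by
  ext1 i
  rw [PowerSeries.coeff_rescale, PP, QQ, PowerSeries.coeff_C_mul, PowerSeries.coeff_mk,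
    PowerSeries.coeff_mk]
  rcases i with _ | i
  · simp
  · rw [if_neg (Nat.succ_ne_zero i), Nat.add_sub_cancel]
    split_ifs with h
    · ring
    · simp

variable (y : ℕ → σ) (n : ℕ) (hy : ∀ i j, i ≤ n → j ≤ n → y i = y j → i = j)
include hy

lemma cd_QQ (a : ℕ) (ha : 1 ≤ a) (han : a ≤ n) :
    cd (pderiv (y a)) (QQ y n) = PowerSeries.monomial a (X (y 0) ^ (a - 1)) := by
  classical
  ext1 i
  rw [coeff_cd, PowerSeries.coeff_monomial, QQ, PowerSeries.coeff_mk]
  have h0 : y 0 ≠ y a := fun h => by
    have := hy 0 a (Nat.zero_le n) han h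
    omega
  split_ifs with h1 h2 h3 h4 h5
  · omega
  · exact pderiv_one
  · subst h4
    rw [pderiv_mul, pderiv_X_self, pderiv_pow, pderiv_X_of_ne h0]
    ring
  · rw [pderiv_mul, pderiv_pow, pderiv_X_of_ne h0, pderiv_X_of_ne]
    · ring
    · intro h
      exact h4 (hy i a h3 han h)
  · omega
  · exact map_zero _

lemma cd_cd_QQ (a b : ℕ) (ha : 1 ≤ a) (han : a ≤ n) (hb : 1 ≤ b) (hbn : b ≤ n) :
    cd (pderiv (y b)) (cd (pderiv (y a)) (QQ y n)) = 0 := by
  have h0 : y 0 ≠ y b := fun h => by
    have := hy 0 b (Nat.zero_le n) hbn h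
    omega
  rw [cd_QQ y n hy a ha han]
  ext1 i
  rw [coeff_cd, PowerSeries.coeff_monomial, map_zero]
  split_ifs with h1
  · rw [pderiv_pow, pderiv_X_of_ne h0, mul_zero]
  · exact map_zero _

lemma W_HT {H : PowerSeries (MvPolynomial σ ℂ)} (hH : QQ y n * H = 1) (hn : 1 ≤ n) (j : ℕ) :
    PowerSeries.coeff j (th (QQ y n) * H) ∈ HT (fun a => y (n - a)) (n - 1) := by
  have key : ∀ a b, a ≤ n - 1 → b ≤ n - 1 →
      pderiv (y (n - a)) (pderiv (y (n - b)) (PowerSeries.coeff j (th (QQ y n) * H))) =
      PowerSeries.coeff j (th (-(PowerSeries.monomial (2 * n - (a + b))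
        (X (y 0) ^ (2 * n - (a + b) - 2)) * H ^ 2))) := by
    intro a b ha hb
    have h1 : pderiv (y (n - a)) (pderiv (y (n - b)) (PowerSeries.coeff j (th (QQ y n) * H))) =
        PowerSeries.coeff j (cd (pderiv (y (n - a))) (cd (pderiv (y (n - b))) (th (QQ y n) * H))) := by
      rw [coeff_cd, coeff_cd]
    rw [h1, cd_cd_log (pderiv (y (n - b))) (pderiv (y (n - a))) hH
      (cd_cd_QQ y n hy (n - b) (n - a) (by omega) (by omega) (by omega) (by omega)),
      cd_QQ y n hy (n - a) (by omega) (by omega), cd_QQ y n hy (n - b) (by omega) (by omega),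
      PowerSeries.monomial_mul_monomial, ← pow_add]
    have e1 : n - b + (n - a) = 2 * n - (a + b) := by omega
    have e2 : n - b - 1 + (n - a - 1) = 2 * n - (a + b) - 2 := by omega
    rw [e1, e2]
  intro a b a' b' h1 h2 h3 h4 h5
  change pderiv (y (n - a)) (pderiv (y (n - b)) _) = pderiv (y (n - a')) (pderiv (y (n - b')) _)
  rw [key a b h1 h2, key a' b' h3 h4, h5]

lemma gam_mem (hn : 1 ≤ n) (d : ℕ) (hd : 1 ≤ d) (ζ : ℂ) (hζ : IsPrimitiveRoot ζ d) (j : ℕ) :
    PowerSeries.coeff j (∏ k ∈ Finset.range d, PowerSeries.rescale (C (ζ ^ k)) (QQ y n)) ∈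
      HT (fun a => y (n - a)) (n - 1) ^ (j / d) := by
  obtain ⟨H, hH⟩ := exists_inv y n
  set V := HT (fun a => y (n - a)) (n - 1) with hV
  set G := ∏ k ∈ Finset.range d, PowerSeries.rescale (C (ζ ^ k)) (QQ y n) with hG
  have hth : th G = G * ∑ k ∈ Finset.range d, PowerSeries.rescale (C (ζ ^ k)) (th (QQ y n) * H) := by
    have h1 := th_prod (Finset.range d)
      (fun k => PowerSeries.rescale (C (ζ ^ k) : MvPolynomial σ ℂ) (QQ y n))
      (fun k => PowerSeries.rescale (C (ζ ^ k) : MvPolynomial σ ℂ) H) (fun k => by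
        rw [← map_mul, hH, map_one])
    rw [hG, h1]
    congr 1
    refine Finset.sum_congr rfl fun k _ => ?_
    rw [th_rescale, map_mul]
  induction j using Nat.strong_induction_on with
  | _ j ih =>
    rcases Nat.eq_zero_or_pos j with rfl | hj
    · have : PowerSeries.coeff 0 G = 1 := by
        rw [hG, PowerSeries.coeff_zero_eq_constantCoeff_apply, map_prod]
        refine Finset.prod_eq_one fun k _ => ?_
        rw [← PowerSeries.coeff_zero_eq_constantCoeff_apply, PowerSeries.coeff_rescale, QQ,
          PowerSeries.coeff_mk, if_pos rfl]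
        simp
      rw [this, Nat.zero_div, pow_zero]
      exact Submodule.one_le.mp le_rfl
    · have h1 := congrArg (PowerSeries.coeff j) hth
      rw [coeff_th, PowerSeries.coeff_mul] at h1
      have h2 : PowerSeries.coeff j G = (j : ℂ)⁻¹ • ((j : MvPolynomial σ ℂ) * PowerSeries.coeff j G) := by
        have hj0 : (j : ℂ) ≠ 0 := by exact_mod_cast hj.ne'
        have : ((j : ℕ) : MvPolynomial σ ℂ) = C (j : ℂ) := by simp
        rw [this, ← smul_eq_C_mul, smul_smul, inv_mul_cancel₀ hj0, one_smul]
      rw [h2, h1]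
      refine Submodule.smul_mem _ _ (Submodule.sum_mem _ fun x hx => ?_)
      obtain ⟨i, i'⟩ := x
      rw [Finset.HasAntidiagonal.mem_antidiagonal] at hx
      simp only at hx ⊢
      have h3 : PowerSeries.coeff i' (∑ k ∈ Finset.range d, PowerSeries.rescale (C (ζ ^ k))
          (th (QQ y n) * H)) = (∑ k ∈ Finset.range d, (ζ ^ i') ^ k) •
            PowerSeries.coeff i' (th (QQ y n) * H) := by
        rw [map_sum, Finset.sum_smul]
        refine Finset.sum_congr rfl fun k _ => ?_
        rw [PowerSeries.coeff_rescale, ← C_pow, ← smul_eq_C_mul, ← pow_mul, ← pow_mul, mul_comm k]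
      rw [h3]
      by_cases hdv : d ∣ i'
      · obtain ⟨e, rfl⟩ := hdv
        rcases Nat.eq_zero_or_pos e with rfl | he
        · rw [mul_zero, PowerSeries.coeff_mul]
          simp [coeff_th]
        · have hi : i < j := by
            have : 1 ≤ d * e := Nat.mul_pos hd he
            omega
          have h4 := ih i hi
          have h5 : j / d = i / d + e := by
            rw [← hx, Nat.add_mul_div_left _ _ hd]
          have h6 := Submodule.mul_mem_mul h4 (W_HT y n hy hH hn (d * e))
          rw [← hV, ← pow_succ] at h6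
          rw [mul_smul_comm]
          refine Submodule.smul_mem _ _ ?_
          refine HT_pow_mono _ _ ?_ h6
          omega
      · have h4 : (∑ k ∈ Finset.range d, (ζ ^ i') ^ k) = 0 := by
          have h5 := geom_sum_mul (ζ ^ i') d
          rw [← pow_mul, mul_comm i', pow_mul, hζ.pow_eq_one, one_pow, sub_self] at h5
          rcases mul_eq_zero.mp h5 with h6 | h6
          · exact h6
          · exact absurd ((hζ.pow_eq_one_iff_dvd i').mp (sub_eq_zero.mp h6)) hdv
        rw [h4, zero_smul, mul_zero]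
        exact Submodule.zero_mem _

end

end Pool.Agent.Helper41.Hk
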