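import Pool.Agent.Helper74.Apol.Special

/-!
# The socle degree of an apolar complete intersection in three variables
-/

set_option autoImplicit false

open MvPolynomial

namespace Pool.Agent.Helper41.Hk

open Helper74.Apol Matrix

private lemma gen_decomp75 {N : ℕ} (p : MvPolynomial (Fin N) ℂ) (k : ℕ) (hk : 1 ≤ k)
    (hp : p.IsHomogeneous k) : ∃ q : Fin N → MvPolynomial (Fin N) ℂ,
      (∀ j, (q j).IsHomogeneous (k - 1)) ∧ p = ∑ j, q j * X j := by
  refine ⟨fun j => C ((k : ℂ)⁻¹) * pderiv j p, fun j => ?_, ?_⟩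
  · have := (isHomogeneous_C (Fin N) ((k : ℂ)⁻¹)).mul (hp.pderiv (i := j))
    simpa using this
  · have h1 := hp.sum_X_mul_pderiv
    have hk0 : (k : ℂ) ≠ 0 := by exact_mod_cast (by omega : k ≠ 0)
    calc p = C ((k : ℂ)⁻¹) * (k • p) := by
          rw [← Nat.cast_smul_eq_nsmul ℂ, smul_eq_C_mul, ← mul_assoc, ← C_mul,
            inv_mul_cancel₀ hk0, C_1, one_mul]
      _ = _ := by
          rw [← h1, Finset.mul_sum]
          exact Finset.sum_congr rfl fun j _ => by ring

/-- `X j * det M = (adj M *ᵥ (M *ᵥ X)) j`. -/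
private lemma cramer75 (M : Matrix (Fin 3) (Fin 3) (MvPolynomial (Fin 3) ℂ))
    (x : Fin 3 → MvPolynomial (Fin 3) ℂ) (j : Fin 3) :
    M.det * x j = ∑ a, M.adjugate j a * (M *ᵥ x) a := by
  have h1 : (M.adjugate *ᵥ (M *ᵥ x)) j = M.det * x j := by
    rw [mulVec_mulVec, adjugate_mul, smul_mulVec, one_mulVec, Pi.smul_apply, smul_eq_mul]
  rw [← h1]
  rfl

/-- The ideal of the pure powers. -/
private noncomputable def J75 (K : ℕ) : Ideal (MvPolynomial (Fin 3) ℂ) :=
  Ideal.span (Set.range fun i => (X i : MvPolynomial (Fin 3) ℂ) ^ K)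

private lemma row75 (K : ℕ) (M : Matrix (Fin 3) (Fin 3) (MvPolynomial (Fin 3) ℂ)) (j : Fin 3)
    (h : ∀ a, (M *ᵥ fun i => X i) a = if a = j then 0 else X a ^ K) : M.det ∈ J75 K := by
  classical
  have h1 : M.det * X j ^ (if j = j then 1 else K) ∈ Ideal.span
      ((fun i => (X i : MvPolynomial (Fin 3) ℂ) ^ (if i = j then 1 else K)) ''
        ((Finset.univ.erase j : Finset (Fin 3)) : Set (Fin 3))) := by
    rw [if_pos rfl, pow_one, cramer75 M (fun i => X i) j]
    refine Ideal.sum_mem _ fun a _ => ?_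
    rw [h a]
    by_cases haj : a = j
    · rw [if_pos haj, mul_zero]
      exact Ideal.zero_mem _
    · rw [if_neg haj]
      refine Ideal.mul_mem_left _ _ (Ideal.subset_span ⟨a, ?_, ?_⟩)
      · simpa using haj
      · simp only [if_neg haj]
  have h2 := mul_pow_mem (Finset.univ.erase j) (fun i => if i = j then 1 else K) j (by simp) _ h1
  refine Ideal.span_mono ?_ h2
  rintro _ ⟨i, hi, rfl⟩
  have hij : i ≠ j := by simpa using hi
  exact ⟨i, by simp only [if_neg hij]⟩

private lemma step75 (K : ℕ) (M : Matrix (Fin 3) (Fin 3) (MvPolynomial (Fin 3) ℂ)) (j : Fin 3)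
    (w : Fin 3 → MvPolynomial (Fin 3) ℂ) (hM : ∀ a, (M *ᵥ fun i => X i) a = X a ^ K)
    (hw : w ⬝ᵥ (fun i => X i) = X j ^ K) :
    M.det - (M.updateRow j w).det ∈ J75 K ∧
      ∀ a, ((M.updateRow j w) *ᵥ fun i => X i) a = X a ^ K := by
  classical
  have hrow : ∀ (v : Fin 3 → MvPolynomial (Fin 3) ℂ) (a : Fin 3),
      ((M.updateRow j v) *ᵥ fun i => X i) a =
        if a = j then v ⬝ᵥ (fun i => X i) else X a ^ K := by
    intro v a
    by_cases haj : a = j
    · subst haj
      rw [if_pos rfl]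
      change (M.updateRow a v) a ⬝ᵥ (fun i => X i) = _
      rw [updateRow_self]
    · rw [if_neg haj, ← hM a]
      change (M.updateRow j v) a ⬝ᵥ (fun i => X i) = M a ⬝ᵥ (fun i => X i)
      rw [updateRow_ne haj]
  constructor
  · have h1 : M.det - (M.updateRow j w).det = (M.updateRow j (M j - w)).det := by
      have h2 := det_updateRow_add M j (M j - w) w
      rw [sub_add_cancel, updateRow_eq_self] at h2
      rw [h2]
      ring
    rw [h1]
    refine row75 K _ j fun a => ?_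
    rw [hrow]
    by_cases haj : a = j
    · rw [if_pos haj, if_pos haj, sub_dotProduct, hw]
      have h3 : M j ⬝ᵥ (fun i => X i) = X j ^ K := hM j
      rw [h3, sub_self]
    · rw [if_neg haj, if_neg haj]
  · intro a
    rw [hrow]
    by_cases haj : a = j
    · rw [if_pos haj, haj, hw]
    · rw [if_neg haj]

private lemma det_mem75 (K : ℕ) (hK : 1 ≤ K)
    (M : Matrix (Fin 3) (Fin 3) (MvPolynomial (Fin 3) ℂ))
    (hM : ∀ a, (M *ᵥ fun i => X i) a = X a ^ K) : M.det ∉ J75 K := by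
  classical
  intro hmem
  obtain ⟨w, hw⟩ : ∃ w : Fin 3 → Fin 3 → MvPolynomial (Fin 3) ℂ,
    ∀ j, w j = Pi.single j (X j ^ (K - 1)) := ⟨fun j => Pi.single j (X j ^ (K - 1)), fun _ => rfl⟩
  have hwX : ∀ j, w j ⬝ᵥ (fun i => X i) = X j ^ K := by
    intro j
    rw [hw, single_dotProduct, ← pow_succ]
    congr 1
    omega
  obtain ⟨h0, h0'⟩ := step75 K M 0 (w 0) hM (hwX 0)
  obtain ⟨h1, h1'⟩ := step75 K _ 1 (w 1) h0' (hwX 1)
  obtain ⟨h2, -⟩ := step75 K _ 2 (w 2) h1' (hwX 2)
  have h3 : ((((M.updateRow 0 (w 0)).updateRow 1 (w 1)).updateRow 2 (w 2))).det =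
      ∏ i : Fin 3, X i ^ (K - 1) := by
    have h4 : ((M.updateRow 0 (w 0)).updateRow 1 (w 1)).updateRow 2 (w 2) =
        Matrix.diagonal fun i => X i ^ (K - 1) := by
      rw [hw, hw, hw]
      ext1 a b
      fin_cases a <;> fin_cases b <;> simp [updateRow_apply, diagonal_apply, Pi.single_apply]
    rw [h4, det_diagonal]
  have h5 : (∏ i : Fin 3, X i ^ (K - 1) : MvPolynomial (Fin 3) ℂ) ∈ J75 K := by
    rw [← h3]
    have := Ideal.sub_mem _ (Ideal.sub_mem _ (Ideal.sub_mem _ hmem h0) h1) h2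
    convert this using 1
    ring
  have h6 : J75 K = Ideal.span ((fun i => (X i : MvPolynomial (Fin 3) ℂ) ^ (fun _ => K) i) ''
      ((Finset.univ : Finset (Fin 3)) : Set (Fin 3))) := by
    unfold J75
    rw [Finset.coe_univ, Set.image_univ]
  rw [h6, mem_pow_ideal] at h5
  have h7 : (∏ i : Fin 3, X i ^ (K - 1) : MvPolynomial (Fin 3) ℂ) =
      monomial (Finsupp.equivFunOnFinite.symm fun _ => K - 1) 1 := by
    rw [monomial_eq, C_1, one_mul, Finsupp.prod_fintype _ _ (fun i => by simp)]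
    rfl
  obtain ⟨i, -, hi⟩ := h5 (Finsupp.equivFunOnFinite.symm fun _ => K - 1) (by
    rw [mem_support_iff, h7, coeff_monomial, if_pos rfl]
    exact one_ne_zero)
  simp at hi
  omega

/-- The socle degree of an apolar complete intersection of three forms in three variables. -/
theorem socle_degree (G : Fin 3 → MvPolynomial (Fin 3) ℂ) (e : Fin 3 → ℕ) (he : ∀ i, 1 ≤ e i)
    (hG : ∀ i, (G i).IsHomogeneous (e i)) (F : MvPolynomial (Fin 3) ℂ) (d : ℕ)
    (hF : F.IsHomogeneous d) (hF0 : F ≠ 0)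
    (hI : Helper74.Apol.annI F = Ideal.span (Set.range G)) : d + 3 ≤ e 0 + e 1 + e 2 := by
  classical
  choose B hB hGB using fun i => gen_decomp75 (G i) (e i) (he i) (hG i)
  obtain ⟨Bm, hBm⟩ : ∃ Bm : Matrix (Fin 3) (Fin 3) (MvPolynomial (Fin 3) ℂ),
    Bm = Matrix.of B := ⟨_, rfl⟩
  have hBX : Bm *ᵥ (fun i => X i) = G := by
    ext1 i
    rw [hGB i, hBm]
    rfl
  by_contra hcon
  push Not at hcon
  -- the determinant is in the ideal
  have hX : ∀ j, Bm.det * X j ∈ annI F := by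
    intro j
    rw [cramer75 Bm (fun i => X i) j, hBX, hI]
    exact Ideal.sum_mem _ fun a _ => Ideal.mul_mem_left _ _ (Ideal.subset_span ⟨a, rfl⟩)
  have hdeg : Bm.det.IsHomogeneous ((e 0 - 1) + (e 1 - 1) + (e 2 - 1)) := by
    rw [det_apply]
    refine IsHomogeneous.sum _ _ _ fun σ _ => ?_
    rw [Units.smul_def, ← Int.cast_smul_eq_zsmul ℂ, smul_eq_C_mul]
    have h1 := IsHomogeneous.prod Finset.univ (fun i : Fin 3 => Bm (σ i) i)
      (fun i => e (σ i) - 1) (fun i _ => by rw [hBm]; exact hB (σ i) i)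
    have h2 : ∑ i, (e (σ i) - 1) = (e 0 - 1) + (e 1 - 1) + (e 2 - 1) := by
      rw [Equiv.sum_comp σ (fun i => e i - 1), Fin.sum_univ_three]
    rw [h2] at h1
    have h3 := (isHomogeneous_C (Fin 3) (((Equiv.Perm.sign σ : ℤˣ) : ℤ) : ℂ)).mul h1
    rw [zero_add] at h3
    exact h3
  have hD : Bm.det ∈ annI F := by
    rw [mem_annI_iff]
    intro c
    rw [← Lam_mul_monomial F _ c _ (Finset.Subset.refl _)]
    by_cases hc : ∃ j, 1 ≤ c j
    · obtain ⟨j, hj⟩ := hc
      have h1 : (monomial c 1 : MvPolynomial (Fin 3) ℂ) =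
          X j * monomial (c - Finsupp.single j 1) 1 := by
        have h2 : Finsupp.single j 1 + (c - Finsupp.single j 1) = c := by
          ext i
          by_cases hij : j = i
          · subst hij
            simp
            omega
          · simp [Finsupp.single_apply, hij]
        rw [X, monomial_mul, one_mul, h2]
      rw [h1, ← mul_assoc]
      exact (mem_annI F _).mp (hX j) _
    · have hc0 : c = 0 := by
        ext i
        by_contra h
        exact hc ⟨i, Nat.one_le_iff_ne_zero.mpr h⟩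
      rw [hc0, Lam_mul_monomial F _ 0 _ (Finset.Subset.refl _)]
      refine Finset.sum_eq_zero fun a ha => ?_
      rw [add_zero, hh_zero hF, mul_zero]
      have h1 : a.degree = (e 0 - 1) + (e 1 - 1) + (e 2 - 1) := by
        rw [Finsupp.degree_eq_weight_one]
        exact hdeg (mem_support_iff.mp ha)
      have h0 := he 0
      have h2 := he 1
      have h3 := he 2
      omega
  -- powers of the variables
  have hpow : ∀ j : Fin 3, (X j : MvPolynomial (Fin 3) ℂ) ^ (d + 1) ∈ Ideal.span (Set.range G) := by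
    intro j
    rw [← hI]
    exact annI_large hF (isHomogeneous_X_pow j (d + 1)) (Nat.lt_succ_self d)
  have hpow' : ∀ j : Fin 3, ∃ A : Fin 3 → MvPolynomial (Fin 3) ℂ, ∑ i, A i * G i = X j ^ (d + 1) :=
    fun j => Ideal.mem_span_range_iff_exists_fun.mp (hpow j)
  choose A hA using hpow'
  obtain ⟨Am, hAm⟩ : ∃ Am : Matrix (Fin 3) (Fin 3) (MvPolynomial (Fin 3) ℂ),
    Am = Matrix.of A := ⟨_, rfl⟩
  have hAG : ∀ a, (Am *ᵥ G) a = X a ^ (d + 1) := by
    intro a
    rw [← hA a, hAm]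
    rfl
  have hAB : ∀ a, ((Am * Bm) *ᵥ fun i => X i) a = X a ^ (d + 1) := by
    intro a
    rw [← mulVec_mulVec, hBX, hAG]
  refine det_mem75 (d + 1) (by omega) (Am * Bm) hAB ?_
  rw [det_mul]
  rw [hI, Ideal.mem_span_range_iff_exists_fun] at hD
  obtain ⟨c, hc⟩ := hD
  rw [← hc, Finset.mul_sum]
  refine Ideal.sum_mem _ fun i _ => ?_
  have h1 : Am.det * (c i * G i) = c i * (Am.det * G i) := by ring
  rw [h1, cramer75 Am G i]
  refine Ideal.mul_mem_left _ _ (Ideal.sum_mem _ fun a _ => ?_)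
  rw [hAG]
  exact Ideal.mul_mem_left _ _ (Ideal.subset_span ⟨a, rfl⟩)

end Pool.Agent.Helper41.Hk
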