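import Mathlib

set_option autoImplicit false

/-!
# The univariate lemma on pencils of cubics (MP_310f0a, arrangements of lines)
-/

open Polynomial

namespace Pool.Agent.Helper41.Hk

section
variable {ι : Type*} [DecidableEq ι]

lemma coeff_one_add (a : ℂ) (P : ℂ[X]) (k : ℕ) :
    ((1 + C a * X) * P).coeff (k + 1) = P.coeff (k + 1) + a * P.coeff k := by
  rw [add_mul, one_mul, coeff_add, mul_assoc, coeff_C_mul, mul_comm X P, coeff_mul_X]

lemma coeff_one_add_zero (a : ℂ) (P : ℂ[X]) : ((1 + C a * X) * P).coeff 0 = P.coeff 0 := by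
  rw [add_mul, one_mul, coeff_add, mul_assoc, coeff_C_mul, mul_comm X P, coeff_mul_X_zero,
    mul_zero, add_zero]

/-- The first coefficients of a product of linear polynomials. -/
lemma prod_coeffs (S : Finset ι) (x : ι → ℂ) :
    (∏ j ∈ S, (1 + C (x j) * X : ℂ[X])).coeff 0 = 1 ∧
    (∏ j ∈ S, (1 + C (x j) * X : ℂ[X])).coeff 1 = ∑ j ∈ S, x j ∧
    2 * (∏ j ∈ S, (1 + C (x j) * X : ℂ[X])).coeff 2 = (∑ j ∈ S, x j) ^ 2 - ∑ j ∈ S, x j ^ 2 ∧
    6 * (∏ j ∈ S, (1 + C (x j) * X : ℂ[X])).coeff 3 =
      (∑ j ∈ S, x j) ^ 3 - 3 * (∑ j ∈ S, x j) * (∑ j ∈ S, x j ^ 2) + 2 * ∑ j ∈ S, x j ^ 3 := by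
  induction S using Finset.induction_on with
  | empty => simp [coeff_one]
  | insert a S ha ih =>
    obtain ⟨h0, h1, h2, h3⟩ := ih
    rw [Finset.prod_insert ha, Finset.sum_insert ha, Finset.sum_insert ha, Finset.sum_insert ha]
    set P := ∏ j ∈ S, (1 + C (x j) * X : ℂ[X])
    refine ⟨?_, ?_, ?_, ?_⟩
    · rw [coeff_one_add_zero, h0]
    · rw [coeff_one_add _ _ 0, h0, h1]; ring
    · rw [coeff_one_add _ _ 1, h1, mul_add, h2]; ring
    · rw [coeff_one_add _ _ 2, mul_add, h3]
      linear_combination 3 * x a * h2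

end

section
variable {N : ℕ} (t c : Fin N → ℂ)

/-- The polynomial with the roots `t j`. -/
noncomputable def ph : ℂ[X] := ∏ j, (X - C (t j))

/-- The polynomial with the roots `t i`, `i ≠ j`. -/
noncomputable def ps (j : Fin N) : ℂ[X] := ∏ i ∈ Finset.univ.erase j, (X - C (t i))

lemma ph_eq (j : Fin N) : ph t = (X - C (t j)) * ps t j :=
  (Finset.mul_prod_erase Finset.univ _ (Finset.mem_univ j)).symm

lemma ps_eval_ne {i j : Fin N} (h : i ≠ j) : (ps t i).eval (t j) = 0 := by
  unfold ps
  rw [eval_prod]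
  refine Finset.prod_eq_zero (Finset.mem_erase.mpr ⟨Ne.symm h, Finset.mem_univ j⟩) ?_
  simp

lemma dph_eval (j : Fin N) : (derivative (ph t)).eval (t j) = (ps t j).eval (t j) := by
  rw [ph_eq t j, derivative_mul, derivative_sub, derivative_X, derivative_C, sub_zero, one_mul,
    eval_add, eval_mul, eval_sub, eval_X, eval_C, sub_self, zero_mul, add_zero]

lemma ps_eval_self (ht : Function.Injective t) (j : Fin N) : (ps t j).eval (t j) ≠ 0 := by
  unfold ps
  rw [eval_prod, Finset.prod_ne_zero_iff]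
  intro i hi
  rw [eval_sub, eval_X, eval_C, sub_ne_zero]
  intro h
  exact (Finset.ne_of_mem_erase hi) (ht h).symm

lemma sum_ps_eval (v : Fin N → ℂ) (j : Fin N) :
    (∑ i, C (v i) * ps t i).eval (t j) = v j * (derivative (ph t)).eval (t j) := by
  rw [eval_finsetSum, Finset.sum_eq_single j]
  · rw [eval_mul, eval_C, dph_eval]
  · intro i _ hi
    rw [eval_mul, ps_eval_ne t hi, mul_zero]
  · intro h
    exact absurd (Finset.mem_univ j) h

/-- The numerator of `(Q / φ)''`. -/
noncomputable def nn (φ Q : ℂ[X]) : ℂ[X] :=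
  derivative (derivative Q) * φ ^ 2 - 2 * (derivative Q * derivative φ * φ) -
    Q * derivative (derivative φ) * φ + 2 * (Q * derivative φ ^ 2)

lemma nn_ps (j : Fin N) : nn (ph t) (ps t j) = 2 * ps t j ^ 3 := by
  unfold nn
  rw [ph_eq t j]
  simp only [derivative_mul, derivative_sub, derivative_X, derivative_C, sub_zero, one_mul,
    derivative_add]
  ring

lemma nn_add (φ Q Q' : ℂ[X]) : nn φ (Q + Q') = nn φ Q + nn φ Q' := by
  unfold nn
  simp only [derivative_add]
  ring

lemma nn_C_mul (φ Q : ℂ[X]) (a : ℂ) : nn φ (C a * Q) = C a * nn φ Q := by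
  unfold nn
  simp only [derivative_C_mul]
  ring

lemma nn_zero (φ : ℂ[X]) : nn φ 0 = 0 := by
  unfold nn
  simp

lemma nn_sum (φ : ℂ[X]) (S : Finset (Fin N)) (v : Fin N → ℂ) (R : Fin N → ℂ[X]) :
    nn φ (∑ j ∈ S, C (v j) * R j) = ∑ j ∈ S, C (v j) * nn φ (R j) := by
  classical
  induction S using Finset.induction_on with
  | empty => rw [Finset.sum_empty, Finset.sum_empty, nn_zero]
  | insert a S ha ih => rw [Finset.sum_insert ha, Finset.sum_insert ha, nn_add, nn_C_mul, ih]

lemma monic_ph : (ph t).Monic := monic_prod_of_monic _ _ fun j _ => monic_X_sub_C (t j)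

lemma natDegree_ph : (ph t).natDegree = N := by
  unfold ph
  rw [natDegree_prod_of_monic _ _ fun j _ => monic_X_sub_C (t j)]
  simp

lemma natDegree_ps (j : Fin N) : (ps t j).natDegree ≤ N - 1 := by
  unfold ps
  rw [natDegree_prod_of_monic _ _ fun j _ => monic_X_sub_C (t j)]
  simp [Finset.card_erase_of_mem (Finset.mem_univ j)]

/-- The polynomials `∏ ((u - t j) + c j Z)`. -/
noncomputable def AA (u : ℂ) : ℂ[X] := ∏ j, (C (u - t j) + C (c j) * X)

lemma AA_sub (h1 : ∀ z : ℂ, ∃ e : ℂ, (∏ j, (X - C (t j - c j * z))) -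
    (∏ j, (X - C (t j + c j * z))) = C e) (u : ℂ) :
    AA t c u - (AA t c u).comp (-X) = AA t c 0 - (AA t c 0).comp (-X) := by
  refine Polynomial.funext fun z => ?_
  obtain ⟨e, he⟩ := h1 z
  have key : ∀ u : ℂ, (AA t c u - (AA t c u).comp (-X)).eval z = e := by
    intro u
    have h2 := congrArg (eval u) he
    rw [eval_C, eval_sub, eval_prod, eval_prod] at h2
    rw [← h2, eval_sub, eval_comp, AA, eval_prod, eval_prod]
    congr 1
    · refine Finset.prod_congr rfl fun j _ => ?_
      simp only [eval_add, eval_sub, eval_mul, eval_C, eval_X, eval_neg]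
      ring
    · refine Finset.prod_congr rfl fun j _ => ?_
      simp only [eval_add, eval_sub, eval_mul, eval_C, eval_X, eval_neg]
      ring
  rw [key u, key 0]

lemma coeff_comp_neg (P : ℂ[X]) (k : ℕ) : (P.comp (-X)).coeff k = (-1) ^ k * P.coeff k := by
  have h : (-X : ℂ[X]) = C (-1) * X := by rw [C_neg, C_1, neg_one_mul]
  rw [h, comp_C_mul_X_coeff, mul_comm]

lemma AA_coeff (h1 : ∀ z : ℂ, ∃ e : ℂ, (∏ j, (X - C (t j - c j * z))) -
    (∏ j, (X - C (t j + c j * z))) = C e) (u : ℂ) :
    (AA t c u).coeff 1 = (AA t c 0).coeff 1 ∧ (AA t c u).coeff 3 = (AA t c 0).coeff 3 := by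
  have h2 := AA_sub t c h1 u
  constructor
  · have h3 := congrArg (fun P => coeff P 1) h2
    simp only [coeff_sub, coeff_comp_neg] at h3
    linear_combination (1 / 2) * h3
  · have h3 := congrArg (fun P => coeff P 3) h2
    simp only [coeff_sub, coeff_comp_neg] at h3
    linear_combination (1 / 2) * h3

/-- The two identities. -/
lemma identities (h1 : ∀ z : ℂ, ∃ e : ℂ, (∏ j, (X - C (t j - c j * z))) -
    (∏ j, (X - C (t j + c j * z))) = C e) :
    (∑ j, C (c j) * ps t j = C ((AA t c 0).coeff 1)) ∧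
    (6 * C ((AA t c 0).coeff 3) * ph t ^ 2 = C ((AA t c 0).coeff 1) ^ 3 -
      3 * C ((AA t c 0).coeff 1) * (∑ j, C (c j) ^ 2 * ps t j ^ 2) +
      2 * ∑ j, C (c j) ^ 3 * ps t j ^ 3) := by
  have hinf : {u : ℂ | (ph t).eval u ≠ 0}.Infinite := by
    have h2 : {u : ℂ | (ph t).eval u ≠ 0} = ((ph t).rootSet ℂ)ᶜ := by
      ext u
      rw [Set.mem_compl_iff, mem_rootSet]
      simp only [Set.mem_ofPred_eq, not_and, coe_aeval_eq_eval]
      exact ⟨fun h _ => h, fun h => h (monic_ph t).ne_zero⟩
    rw [h2]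
    exact (Set.Finite.infinite_compl (rootSet_finite _ _))
  have hpt : ∀ u : ℂ, (ph t).eval u ≠ 0 →
      ((∑ j, C (c j) * ps t j).eval u = (AA t c 0).coeff 1) ∧
      (6 * (AA t c 0).coeff 3 * (ph t).eval u ^ 2 = (AA t c 0).coeff 1 ^ 3 -
      3 * (AA t c 0).coeff 1 * (∑ j, C (c j) ^ 2 * ps t j ^ 2).eval u +
      2 * (∑ j, C (c j) ^ 3 * ps t j ^ 3).eval u) := by
    intro u hu
    have hne : ∀ j, u - t j ≠ 0 := by
      intro j h
      apply hu
      rw [ph_eq t j, eval_mul, eval_sub, eval_X, eval_C, h, zero_mul]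
    have hps : ∀ j, (ps t j).eval u = (ph t).eval u / (u - t j) := by
      intro j
      rw [eq_div_iff (hne j), ph_eq t j, eval_mul, eval_sub, eval_X, eval_C]
      ring
    have hA : AA t c u = C ((ph t).eval u) * ∏ j, (1 + C (c j / (u - t j)) * X) := by
      unfold AA ph
      rw [eval_prod, map_prod, ← Finset.prod_mul_distrib]
      refine Finset.prod_congr rfl fun j _ => ?_
      rw [eval_sub, eval_X, eval_C, mul_add, mul_one, ← mul_assoc, ← C_mul,
        mul_div_cancel₀ _ (hne j)]
    obtain ⟨_, g1, _, g3⟩ := prod_coeffs Finset.univ (fun j => c j / (u - t j))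
    obtain ⟨a1, a3⟩ := AA_coeff t c h1 u
    rw [hA, coeff_C_mul, g1] at a1
    rw [hA, coeff_C_mul] at a3
    have e1 : (∑ j, C (c j) * ps t j).eval u = (ph t).eval u * ∑ j, c j / (u - t j) := by
      rw [eval_finsetSum, Finset.mul_sum]
      refine Finset.sum_congr rfl fun j _ => ?_
      rw [eval_mul, eval_C, hps j]
      ring
    have e2 : (∑ j, C (c j) ^ 2 * ps t j ^ 2).eval u =
        (ph t).eval u ^ 2 * ∑ j, (c j / (u - t j)) ^ 2 := by
      rw [eval_finsetSum, Finset.mul_sum]
      refine Finset.sum_congr rfl fun j _ => ?_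
      rw [eval_mul, eval_pow, eval_pow, eval_C, hps j]
      ring
    have e3 : (∑ j, C (c j) ^ 3 * ps t j ^ 3).eval u =
        (ph t).eval u ^ 3 * ∑ j, (c j / (u - t j)) ^ 3 := by
      rw [eval_finsetSum, Finset.mul_sum]
      refine Finset.sum_congr rfl fun j _ => ?_
      rw [eval_mul, eval_pow, eval_pow, eval_C, hps j]
      ring
    refine ⟨by rw [e1, a1], ?_⟩
    rw [e2, e3, ← a1, ← a3]
    linear_combination (ph t).eval u ^ 3 * g3
  constructor
  · refine Polynomial.eq_of_infinite_eval_eq _ _ (hinf.mono ?_)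
    intro u hu
    simp only [Set.mem_ofPred_eq] at hu ⊢
    rw [(hpt u hu).1, eval_C]
  · refine Polynomial.eq_of_infinite_eval_eq _ _ (hinf.mono ?_)
    intro u hu
    simp only [Set.mem_ofPred_eq] at hu ⊢
    have h2 := (hpt u hu).2
    rw [eval_add, eval_sub, eval_mul, eval_mul, eval_mul, eval_mul, eval_mul, eval_pow, eval_pow,
      eval_C, eval_C]
    simpa using h2


lemma natDegree_sum_ps (v : Fin N → ℂ) : (∑ j, C (v j) * ps t j).natDegree ≤ N - 1 := by
  refine natDegree_sum_le_of_forall_le _ _ fun j _ => ?_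
  exact (natDegree_C_mul_le _ _).trans (natDegree_ps t j)

/-- The polynomial `Q` has degree at most two. -/
lemma degQ (hN : 1 ≤ N) (Q R : ℂ[X]) (hQ : Q.natDegree ≤ N - 1) (hR : R.natDegree ≤ 2 * N)
    (h : nn (ph t) Q = R) : Q.natDegree ≤ 2 := by
  by_contra hlt
  rw [not_le] at hlt
  set q := Q.natDegree with hq
  have hφ : (ph t).natDegree ≤ N := (natDegree_ph t).le
  have hφN : (ph t).coeff N = 1 := by
    have := (monic_ph t).coeff_natDegree
    rwa [natDegree_ph] at this
  have hφ' : (derivative (ph t)).natDegree ≤ N - 1 :=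
    (natDegree_derivative_le _).trans (by rw [natDegree_ph])
  have hφ'N : (derivative (ph t)).coeff (N - 1) = N := by
    rw [coeff_derivative]
    have : N - 1 + 1 = N := by omega
    rw [this, hφN, one_mul, ← Nat.cast_succ, Nat.succ_eq_add_one, this]
  have hφ'' : (derivative (derivative (ph t))).natDegree ≤ N - 2 :=
    (natDegree_derivative_le _).trans (by omega)
  have hφ''N : (derivative (derivative (ph t))).coeff (N - 2) = N * (N - 1) := by
    rw [coeff_derivative, coeff_derivative]
    have : N - 2 + 1 + 1 = N := by omega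
    rw [this, hφN, one_mul]
    have h2 : ((N - 2 : ℕ) : ℂ) = N - 2 := by
      rw [Nat.cast_sub (by omega)]; norm_num
    push_cast
    rw [h2]
    ring
  have hQ1 : (derivative Q).natDegree ≤ q - 1 := natDegree_derivative_le _
  have hQ1c : (derivative Q).coeff (q - 1) = q * Q.coeff q := by
    rw [coeff_derivative]
    have : q - 1 + 1 = q := by omega
    have h2 : ((q - 1 : ℕ) : ℂ) = q - 1 := by
      rw [Nat.cast_sub (by omega)]; norm_num
    rw [this, h2]
    ring
  have hQ2 : (derivative (derivative Q)).natDegree ≤ q - 2 :=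
    (natDegree_derivative_le _).trans (by omega)
  have hQ2c : (derivative (derivative Q)).coeff (q - 2) = q * (q - 1) * Q.coeff q := by
    rw [coeff_derivative, coeff_derivative]
    have : q - 2 + 1 + 1 = q := by omega
    have h2 : ((q - 2 : ℕ) : ℂ) = q - 2 := by
      rw [Nat.cast_sub (by omega)]; norm_num
    rw [this]
    push_cast
    rw [h2]
    ring
  have e1 : (derivative (derivative Q) * ph t ^ 2).coeff (q + 2 * N - 2) =
      q * (q - 1) * Q.coeff q := by
    have h3 : q + 2 * N - 2 = (q - 2) + (N + N) := by omega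
    rw [h3, sq, coeff_mul_add_eq_of_natDegree_le hQ2 (natDegree_mul_le_of_le hφ hφ),
      coeff_mul_add_eq_of_natDegree_le hφ hφ, hQ2c, hφN]
    ring
  have e2 : (derivative Q * derivative (ph t) * ph t).coeff (q + 2 * N - 2) =
      q * N * Q.coeff q := by
    have h3 : q + 2 * N - 2 = ((q - 1) + (N - 1)) + N := by omega
    rw [h3, coeff_mul_add_eq_of_natDegree_le (natDegree_mul_le_of_le hQ1 hφ') hφ,
      coeff_mul_add_eq_of_natDegree_le hQ1 hφ', hQ1c, hφN, hφ'N]
    ring
  have e3 : (Q * derivative (derivative (ph t)) * ph t).coeff (q + 2 * N - 2) =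
      N * (N - 1) * Q.coeff q := by
    have h3 : q + 2 * N - 2 = (q + (N - 2)) + N := by omega
    rw [h3, coeff_mul_add_eq_of_natDegree_le (natDegree_mul_le_of_le le_rfl hφ'') hφ,
      coeff_mul_add_eq_of_natDegree_le le_rfl hφ'', hφN, hφ''N]
    ring
  have e4 : (Q * derivative (ph t) ^ 2).coeff (q + 2 * N - 2) = N ^ 2 * Q.coeff q := by
    have h3 : q + 2 * N - 2 = q + ((N - 1) + (N - 1)) := by omega
    rw [h3, sq, coeff_mul_add_eq_of_natDegree_le le_rfl (natDegree_mul_le_of_le hφ' hφ'),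
      coeff_mul_add_eq_of_natDegree_le hφ' hφ', hφ'N]
    ring
  have e5 : (nn (ph t) Q).coeff (q + 2 * N - 2) =
      ((N : ℂ) - q) * (N - q + 1) * Q.coeff q := by
    unfold nn
    have two : ∀ (P : ℂ[X]) (k : ℕ), (2 * P).coeff k = 2 * P.coeff k := by
      intro P k
      rw [two_mul, coeff_add, two_mul]
    rw [coeff_add, coeff_sub, coeff_sub, two, two, e1, e2, e3, e4]
    ring
  have e6 : (nn (ph t) Q).coeff (q + 2 * N - 2) = 0 := by
    rw [h]
    exact coeff_eq_zero_of_natDegree_lt (by omega)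
  rw [e6] at e5
  have hlc : Q.coeff q ≠ 0 := by
    rw [hq]
    intro h0
    have : Q = 0 := leadingCoeff_eq_zero.mp h0
    rw [this] at hq
    simp at hq
    omega
  have hNq : (q : ℝ) < N := by
    have : q < N := by omega
    exact_mod_cast this
  rcases mul_eq_zero.mp e5.symm with h4 | h4
  · rcases mul_eq_zero.mp h4 with h5 | h5
    · have : (q : ℂ) = N := (sub_eq_zero.mp h5).symm
      have h6 : q = N := by exact_mod_cast this
      omega
    · have : ((N + 1 : ℕ) : ℂ) = q := by push_cast; linear_combination h5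
      have h6 : N + 1 = q := by exact_mod_cast this
      omega
  · exact hlc h4

lemma ph_dvd (ht : Function.Injective t) (P : ℂ[X]) (h : ∀ j, P.eval (t j) = 0) : ph t ∣ P := by
  unfold ph
  refine Finset.prod_dvd_of_coprime ?_ fun j _ => dvd_iff_isRoot.mpr (h j)
  intro i _ j _ hij
  exact pairwise_coprime_X_sub_C ht hij

lemma eq_C_mul_ph (ht : Function.Injective t) (P : ℂ[X]) (hP : P.natDegree ≤ N)
    (h : ∀ j, P.eval (t j) = 0) : P = C (P.coeff N) * ph t := by
  obtain ⟨R, hR⟩ := ph_dvd t ht P h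
  have hR0 : R.natDegree = 0 := by
    by_cases hR1 : R = 0
    · rw [hR1, natDegree_zero]
    · have h2 := (monic_ph t).natDegree_mul' hR1
      rw [← hR, natDegree_ph] at h2
      omega
  obtain ⟨e, he⟩ := natDegree_eq_zero.mp hR0
  rw [← he] at hR
  have h3 : P.coeff N = e := by
    rw [hR, coeff_mul_C]
    have := (monic_ph t).coeff_natDegree
    rw [natDegree_ph] at this
    rw [this, one_mul]
  rw [h3, hR, mul_comm]

/-- The differential equation. -/
lemma ode (ht : Function.Injective t) (Q : ℂ[X]) (κ : ℂ) (hQ : Q.natDegree ≤ 2)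
    (hN : 2 ≤ N) (h : ∀ j, Q.eval (t j) * (derivative (ph t)).eval (t j) ^ 2 = κ) :
    ∃ e : ℂ, derivative (2 * (Q * derivative (derivative (ph t))) + derivative Q *
      derivative (ph t)) = C (2 * e) * derivative (ph t) := by
  obtain ⟨Ψ, hΨ⟩ := ph_dvd t ht (Q * derivative (ph t) ^ 2 - C κ) (fun j => by
    rw [eval_sub, eval_mul, eval_pow, eval_C, h j, sub_self])
  have hφ' : (derivative (ph t)).natDegree ≤ N - 1 :=
    (natDegree_derivative_le _).trans (by rw [natDegree_ph])
  have hφ'' : (derivative (derivative (ph t))).natDegree ≤ N - 2 :=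
    (natDegree_derivative_le _).trans (by omega)
  have hQ' : (derivative Q).natDegree ≤ 1 := (natDegree_derivative_le _).trans (by omega)
  have hd : (Q * derivative (ph t) ^ 2 - C κ).natDegree ≤ 2 * N := by
    refine (natDegree_sub_le _ _).trans (max_le ?_ (by rw [natDegree_C]; omega))
    rw [sq]
    refine (natDegree_mul_le_of_le hQ (natDegree_mul_le_of_le hφ' hφ')).trans (by omega)
  have hΨd : Ψ.natDegree ≤ N := by
    by_cases hΨ0 : Ψ = 0
    · rw [hΨ0, natDegree_zero]; omega
    · have h2 := (monic_ph t).natDegree_mul' hΨ0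
      rw [← hΨ, natDegree_ph] at h2
      omega
  have hC2 : (C (2 : ℂ) : ℂ[X]) = 2 := map_ofNat C 2
  set W := derivative Q * derivative (ph t) + 2 * (Q * derivative (derivative (ph t))) - Ψ with hW
  have hder : derivative Q * derivative (ph t) ^ 2 + Q * (2 * derivative (ph t) *
      derivative (derivative (ph t))) = derivative (ph t) * Ψ + ph t * derivative Ψ := by
    have h0 := congrArg derivative hΨ
    rw [derivative_sub, derivative_C, derivative_mul, derivative_mul, sq, derivative_mul] at h0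
    linear_combination h0
  have hWd : W.natDegree ≤ N := by
    rw [hW]
    refine (natDegree_sub_le _ _).trans (max_le ?_ hΨd)
    refine (natDegree_add_le _ _).trans (max_le ?_ ?_)
    · exact (natDegree_mul_le_of_le hQ' hφ').trans (by omega)
    · rw [← hC2]
      exact (natDegree_C_mul_le _ _).trans ((natDegree_mul_le_of_le hQ hφ'').trans (by omega))
  have hroot : ∀ j, W.eval (t j) = 0 := by
    intro j
    have h2 := congrArg (eval (t j)) hder
    have h3 : (ph t).eval (t j) = 0 := by
      rw [ph_eq t j, eval_mul, eval_sub, eval_X, eval_C, sub_self, zero_mul]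
    have h4 := ps_eval_self t ht j
    rw [← dph_eval] at h4
    rw [hW]
    simp only [eval_add, eval_sub, eval_mul, eval_pow, h3, zero_mul, add_zero, eval_ofNat] at h2 ⊢
    have h5 : (derivative (ph t)).eval (t j) * ((derivative Q).eval (t j) *
        (derivative (ph t)).eval (t j) + 2 * (Q.eval (t j) *
        (derivative (derivative (ph t))).eval (t j)) - Ψ.eval (t j)) = 0 := by
      linear_combination h2
    exact (mul_eq_zero.mp h5).resolve_left h4
  have hWe := eq_C_mul_ph t ht W hWd hroot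
  refine ⟨W.coeff N, ?_⟩
  have h6 : 2 * (Q * derivative (derivative (ph t))) + derivative Q * derivative (ph t) = W + Ψ := by
    rw [hW]; ring
  have h7 : derivative Ψ = C (W.coeff N) * derivative (ph t) := by
    have h8 : ph t * derivative Ψ = ph t * (C (W.coeff N) * derivative (ph t)) := by
      have h9 : derivative (ph t) * W = ph t * derivative Ψ := by
        rw [hW]
        linear_combination hder
      rw [← h9]
      linear_combination derivative (ph t) * hWe
    exact mul_left_cancel₀ (monic_ph t).ne_zero h8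
  have h10 : derivative W = C (W.coeff N) * derivative (ph t) := by
    have := congrArg derivative hWe
    rwa [derivative_C_mul] at this
  rw [h6, derivative_add, h7, h10, C_mul, hC2]
  ring


/-- The recursion for the coefficients. -/
lemma recur (φ Q : ℂ[X]) (hQ : Q.natDegree ≤ 2) (e : ℂ)
    (h : derivative (2 * (Q * derivative (derivative φ)) + derivative Q * derivative φ) =
      C (2 * e) * derivative φ) (k : ℕ) (hk : 1 ≤ k) :
    2 * Q.coeff 2 * k ^ 2 * φ.coeff k + Q.coeff 1 * (k + 1) * (2 * k + 1) * φ.coeff (k + 1) +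
      2 * Q.coeff 0 * (k + 2) * (k + 1) * φ.coeff (k + 2) = 2 * e * φ.coeff k := by
  obtain ⟨k, rfl⟩ := Nat.exists_eq_add_of_le' hk
  have hQe : Q = C (Q.coeff 2) * X ^ 2 + C (Q.coeff 1) * X + C (Q.coeff 0) :=
    eq_quadratic_of_degree_le_two (natDegree_le_iff_degree_le.mp hQ)
  have hC2 : (C (2 : ℂ) : ℂ[X]) = 2 := map_ofNat C 2
  have hk0 : ((k : ℂ) + 1) ≠ 0 := by exact_mod_cast Nat.succ_ne_zero k
  have two : ∀ (P : ℂ[X]) (k : ℕ), (2 * P).coeff k = 2 * P.coeff k := by
    intro P k
    rw [two_mul, coeff_add, two_mul]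
  have h1 := congrArg (fun P => coeff P k) h
  rw [coeff_derivative, coeff_C_mul, coeff_derivative, coeff_add, two] at h1
  have hA : (Q * derivative (derivative φ)).coeff (k + 1) = Q.coeff 2 * ((k + 1) * k * φ.coeff (k + 1))
      + Q.coeff 1 * ((k + 2) * (k + 1) * φ.coeff (k + 2)) +
      Q.coeff 0 * ((k + 3) * (k + 2) * φ.coeff (k + 3)) := by
    conv_lhs => rw [hQe]
    rw [add_mul, add_mul, coeff_add, coeff_add, mul_assoc, mul_assoc, coeff_C_mul, coeff_C_mul,
      coeff_C_mul, mul_comm (X ^ 2), mul_comm X, coeff_mul_X, coeff_derivative, coeff_derivative,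
      coeff_derivative, coeff_derivative]
    have h2 : (derivative (derivative φ) * X ^ 2).coeff (k + 1) = (k + 1) * k * φ.coeff (k + 1) := by
      rcases k with _ | k
      · rw [coeff_mul_X_pow']
        simp
      · rw [show k + 1 + 1 = k + 2 from rfl, coeff_mul_X_pow, coeff_derivative, coeff_derivative]
        push_cast
        ring
    rw [h2]
    push_cast
    ring
  have hB : (derivative Q * derivative φ).coeff (k + 1) = 2 * Q.coeff 2 * ((k + 1) * φ.coeff (k + 1))
      + Q.coeff 1 * ((k + 2) * φ.coeff (k + 2)) := by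
    have hQ' : derivative Q = C (2 * Q.coeff 2) * X + C (Q.coeff 1) := by
      conv_lhs => rw [hQe]
      rw [derivative_add, derivative_add, derivative_C_mul, derivative_C_mul, derivative_X,
        derivative_C, derivative_X_pow, C_mul, hC2]
      push_cast
      rw [hC2]
      ring
    rw [hQ', add_mul, coeff_add, mul_assoc, coeff_C_mul, coeff_C_mul, mul_comm X, coeff_mul_X,
      coeff_derivative, coeff_derivative]
    push_cast
    ring
  rw [hA, hB] at h1
  push_cast
  apply mul_right_cancel₀ hk0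
  linear_combination h1


theorem star_uni (E N : ℕ) (hE : 7 ≤ E) (hN : N = E ∨ N + 1 = E) (t c : Fin N → ℂ)
    (ht : Function.Injective t) (hs : ∑ j, t j = 0)
    (hcol : ¬ ∃ x y : ℂ, ∀ j, c j = x * t j + y)
    (h1 : ∀ z : ℂ, ∃ e : ℂ, (∏ j, (Polynomial.X - Polynomial.C (t j - c j * z))) -
      (∏ j, (Polynomial.X - Polynomial.C (t j + c j * z))) = Polynomial.C e)
    (k : Fin 4 → ℂ)
    (h2 : ∀ m, m + 4 ≤ E → ∑ r : Fin 4, k r *
      (∏ j, (Polynomial.X - Polynomial.C (t j))).coeff (m + r + 1) *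
      ((m + r + 1).descFactorial (r + 1) : ℂ) *
      ((E - (m + r + 1)).descFactorial (3 - r) : ℂ) = 0) : k = 0 := by
  have hN6 : 6 ≤ N := by omega
  obtain ⟨i1, i3⟩ := identities t c h1
  set κ := (AA t c 0).coeff 1 with hκ
  set κ3 := (AA t c 0).coeff 3 with hκ3
  -- the values at the roots
  have hcφ : ∀ j, c j * (derivative (ph t)).eval (t j) = κ := by
    intro j
    rw [← sum_ps_eval, i1, eval_C]
  have hφ0 : ∀ j, (derivative (ph t)).eval (t j) ≠ 0 := by
    intro j
    rw [dph_eval]
    exact ps_eval_self t ht j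
  have hκ0 : κ ≠ 0 := by
    intro h0
    apply hcol
    refine ⟨0, 0, fun j => ?_⟩
    have := hcφ j
    rw [h0] at this
    rw [(mul_eq_zero.mp this).resolve_right (hφ0 j)]
    ring
  -- the quadratic polynomial
  set Q : ℂ[X] := ∑ j, C (c j ^ 3) * ps t j with hQdef
  have hnn : nn (ph t) Q = 6 * C κ3 * ph t ^ 2 - C κ ^ 3 +
      3 * C κ * (∑ j, C (c j) ^ 2 * ps t j ^ 2) := by
    have e1 : nn (ph t) Q = 2 * ∑ j, C (c j) ^ 3 * ps t j ^ 3 := by
      rw [hQdef, nn_sum, Finset.mul_sum]
      refine Finset.sum_congr rfl fun j _ => ?_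
      rw [nn_ps, C_pow]
      ring
    rw [e1]
    linear_combination -i3
  have hφd : (ph t).natDegree ≤ N := (natDegree_ph t).le
  have c6 : (6 : ℂ[X]) = C 6 := (map_ofNat C 6).symm
  have c3 : (3 : ℂ[X]) = C 3 := (map_ofNat C 3).symm
  have hR : (6 * C κ3 * ph t ^ 2 - C κ ^ 3 +
      3 * C κ * (∑ j, C (c j) ^ 2 * ps t j ^ 2)).natDegree ≤ 2 * N := by
    rw [c6, c3, ← C_mul, ← C_mul, ← C_pow]
    refine (natDegree_add_le _ _).trans (max_le ?_ ?_)
    · refine (natDegree_sub_le _ _).trans (max_le ?_ (by rw [natDegree_C]; omega))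
      refine (natDegree_C_mul_le _ _).trans ?_
      rw [sq]
      exact (natDegree_mul_le_of_le hφd hφd).trans (by omega)
    · refine (natDegree_C_mul_le _ _).trans ?_
      refine natDegree_sum_le_of_forall_le _ _ fun j _ => ?_
      rw [← C_pow]
      refine (natDegree_C_mul_le _ _).trans ?_
      rw [sq]
      exact (natDegree_mul_le_of_le (natDegree_ps t j) (natDegree_ps t j)).trans (by omega)
  have hQ2 : Q.natDegree ≤ 2 := degQ t (by omega) Q _ (natDegree_sum_ps t _) hR hnn
  have hQφ : ∀ j, Q.eval (t j) * (derivative (ph t)).eval (t j) ^ 2 = κ ^ 3 := by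
    intro j
    rw [hQdef, sum_ps_eval, ← hcφ j]
    ring
  obtain ⟨e, he⟩ := ode t ht Q (κ ^ 3) hQ2 (by omega) hQφ
  have hrec := recur (ph t) Q hQ2 e he
  -- coefficients of φ
  have hφN : (ph t).coeff N = 1 := by
    have := (monic_ph t).coeff_natDegree
    rwa [natDegree_ph] at this
  have hφbig : ∀ k, N < k → (ph t).coeff k = 0 := fun k hk =>
    coeff_eq_zero_of_natDegree_lt (by rw [natDegree_ph]; exact hk)
  have hφN1 : (ph t).coeff (N - 1) = 0 := by
    have h3 := prod_X_sub_C_coeff_card_pred Finset.univ t (by simp; omega)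
    rw [Finset.card_univ, Fintype.card_fin, hs, neg_zero] at h3
    exact h3
  set q0 := Q.coeff 2 with hq0
  set q1 := Q.coeff 1 with hq1
  set q2 := Q.coeff 0 with hq2
  have hNc : (N : ℂ) ≠ 0 := by exact_mod_cast (by omega : N ≠ 0)
  have r0 := hrec N (by omega)
  rw [hφN, hφbig (N + 1) (by omega), hφbig (N + 2) (by omega)] at r0
  have he2 : e = q0 * N ^ 2 := by linear_combination -(1 / 2) * r0
  have r1 := hrec (N - 1) (by omega)
  have s1 : N - 1 + 1 = N := by omega
  have s2 : N - 1 + 2 = N + 1 := by omega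
  have s3 : ((N - 1 : ℕ) : ℂ) = N - 1 := by rw [Nat.cast_sub (by omega)]; norm_num
  rw [s1, s2, hφN, hφN1, hφbig (N + 1) (by omega), s3] at r1
  have hq10 : q1 = 0 := by
    have h3 : q1 * (N * (2 * N - 1)) = 0 := by linear_combination r1
    rcases mul_eq_zero.mp h3 with h4 | h4
    · exact h4
    · exfalso
      rcases mul_eq_zero.mp h4 with h5 | h5
      · exact hNc h5
      · have h6 : ((2 * N : ℕ) : ℂ) = (1 : ℕ) := by push_cast; linear_combination h5
        have h7 : 2 * N = 1 := by exact_mod_cast h6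
        omega
  have hrec2 : ∀ k : ℕ, 1 ≤ k → q0 * ((k : ℂ) ^ 2 - N ^ 2) * (ph t).coeff k =
      -(q2 * (k + 2) * (k + 1) * (ph t).coeff (k + 2)) := by
    intro k hk
    have h3 := hrec k hk
    rw [hq10, he2] at h3
    linear_combination (1 / 2) * h3
  have hq00 : q0 ≠ 0 := by
    intro h0
    have h3 := hrec2 (N - 2) (by omega)
    have s4 : N - 2 + 2 = N := by omega
    have s5 : ((N - 2 : ℕ) : ℂ) = N - 2 := by rw [Nat.cast_sub (by omega)]; norm_num
    rw [s4, s5, hφN, h0] at h3
    have h4 : q2 * (N * (N - 1)) = 0 := by linear_combination h3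
    have h5 : q2 = 0 := by
      rcases mul_eq_zero.mp h4 with h5 | h5
      · exact h5
      · exfalso
        rcases mul_eq_zero.mp h5 with h6 | h6
        · exact hNc h6
        · have h7 : (N : ℂ) = (1 : ℕ) := by push_cast; linear_combination h6
          have h8 : N = 1 := by exact_mod_cast h7
          omega
    have hQe : Q = C q0 * X ^ 2 + C q1 * X + C q2 :=
      eq_quadratic_of_degree_le_two (natDegree_le_iff_degree_le.mp hQ2)
    rw [h0, hq10, h5] at hQe
    have h6 := hQφ ⟨0, by omega⟩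
    rw [hQe] at h6
    simp at h6
    exact hκ0 ((pow_eq_zero_iff (by norm_num)).mp h6.symm)
  obtain ⟨ρ, hρ⟩ : ∃ ρ : ℂ, q2 = -(q0 * ρ) := ⟨-q2 / q0, by field_simp⟩
  have hrec3 : ∀ k : ℕ, 1 ≤ k → ((k : ℂ) ^ 2 - N ^ 2) * (ph t).coeff k =
      ρ * (k + 2) * (k + 1) * (ph t).coeff (k + 2) := by
    intro k hk
    have h3 := hrec2 k hk
    rw [hρ] at h3
    apply mul_left_cancel₀ hq00
    linear_combination h3
  have hkN : ∀ k : ℕ, k < N → ((k : ℂ) ^ 2 - N ^ 2) ≠ 0 := by
    intro k hk h3
    have h4 : ((k ^ 2 : ℕ) : ℂ) = ((N ^ 2 : ℕ) : ℂ) := by push_cast; linear_combination h3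
    have h5 : k ^ 2 = N ^ 2 := by exact_mod_cast h4
    have h6 : k ^ 2 < N ^ 2 := Nat.pow_lt_pow_left hk (by norm_num)
    omega
  have hρ0 : ρ ≠ 0 := by
    intro h0
    have hz : ∀ k : ℕ, 1 ≤ k → k < N → (ph t).coeff k = 0 := by
      intro k hk hkN'
      have h3 := hrec3 k hk
      rw [h0] at h3
      have h4 : ((k : ℂ) ^ 2 - N ^ 2) * (ph t).coeff k = 0 := by linear_combination h3
      exact (mul_eq_zero.mp h4).resolve_left (hkN k hkN')
    have hφe : ph t = X ^ N + C ((ph t).coeff 0) := by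
      ext k
      rw [coeff_add, coeff_X_pow, coeff_C]
      rcases Nat.lt_trichotomy k N with h3 | h3 | h3
      · rw [if_neg (by omega)]
        rcases Nat.eq_zero_or_pos k with h4 | h4
        · rw [if_pos h4, h4, zero_add]
        · rw [if_neg (by omega), hz k h4 h3, zero_add]
      · rw [h3, if_pos rfl, if_neg (by omega), hφN, add_zero]
      · rw [if_neg (by omega), if_neg (by omega), hφbig k h3, zero_add]
    set b := (ph t).coeff 0 with hb
    have hroot : ∀ j, t j ^ N = -b := by
      intro j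
      have h3 : (ph t).eval (t j) = 0 := by
        rw [ph_eq t j, eval_mul, eval_sub, eval_X, eval_C, sub_self, zero_mul]
      rw [hφe, eval_add, eval_pow, eval_X, eval_C] at h3
      linear_combination h3
    have hdφ : ∀ j, (derivative (ph t)).eval (t j) = N * t j ^ (N - 1) := by
      intro j
      rw [hφe, derivative_add, derivative_C, derivative_X_pow, add_zero, eval_mul, eval_pow,
        eval_X, eval_C]
    have hb0 : b ≠ 0 := by
      intro h3
      have h4 := hroot ⟨0, by omega⟩
      rw [h3, neg_zero] at h4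
      have h5 : t ⟨0, by omega⟩ = 0 := pow_eq_zero_iff (by omega) |>.mp h4
      have h6 := hφ0 ⟨0, by omega⟩
      rw [hdφ, h5, zero_pow (by omega), mul_zero] at h6
      exact h6 rfl
    apply hcol
    refine ⟨-κ / (N * b), 0, fun j => ?_⟩
    have h3 := hcφ j
    rw [hdφ] at h3
    have h4 : t j ^ (N - 1) * t j = -b := by
      rw [← pow_succ, s1, hroot]
    have h5 : c j * (N * -b) = κ * t j := by
      rw [← h3, ← h4]
      ring
    field_simp
    linear_combination -h5
  -- the coefficients near the top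
  have dv : ∀ {a x : ℂ}, a ≠ 0 → a * x = 0 → x = 0 := fun ha h => (mul_eq_zero.mp h).resolve_left ha
  have cst : ∀ a b : ℕ, a ≠ b → ((a : ℂ) - b) ≠ 0 := fun a b hab h =>
    hab (by exact_mod_cast sub_eq_zero.mp h)
  have f2 : (ph t).coeff (N - 2) = -(N * ρ) / 4 := by
    have h3 := hrec3 (N - 2) (by omega)
    have s4 : N - 2 + 2 = N := by omega
    have s5 : ((N - 2 : ℕ) : ℂ) = N - 2 := by rw [Nat.cast_sub (by omega)]; norm_num
    rw [s4, s5, hφN] at h3
    apply mul_left_cancel₀ (cst N 1 (by omega))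
    push_cast
    linear_combination (-1 / 4) * h3
  have f3 : (ph t).coeff (N - 3) = 0 := by
    have h3 := hrec3 (N - 3) (by omega)
    have s4 : N - 3 + 2 = N - 1 := by omega
    rw [s4, hφN1, mul_zero] at h3
    exact (mul_eq_zero.mp h3).resolve_left (hkN _ (by omega))
  have f4 : (ph t).coeff (N - 4) = N * (N - 3) * ρ ^ 2 / 32 := by
    have h3 := hrec3 (N - 4) (by omega)
    have s4 : N - 4 + 2 = N - 2 := by omega
    have s5 : ((N - 4 : ℕ) : ℂ) = N - 4 := by rw [Nat.cast_sub (by omega)]; norm_num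
    rw [s4, s5, f2] at h3
    apply mul_left_cancel₀ (cst N 2 (by omega))
    push_cast
    linear_combination (-1 / 8) * h3
  have f5 : (ph t).coeff (N - 5) = 0 := by
    have h3 := hrec3 (N - 5) (by omega)
    have s4 : N - 5 + 2 = N - 3 := by omega
    rw [s4, f3, mul_zero] at h3
    exact (mul_eq_zero.mp h3).resolve_left (hkN _ (by omega))
  have g2 := cst N 2 (by omega)
  have g3 := cst N 3 (by omega)
  have g4 := cst N 4 (by omega)
  have g5 := cst N 5 (by omega)
  push_cast at g2 g3 g4 g5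
  have hsum : ∀ m, m + 4 ≤ E →
      k 0 * (ph t).coeff (m + 1) * ((m + 1).descFactorial 1 : ℂ) *
        ((E - (m + 1)).descFactorial 3 : ℂ) +
      k 1 * (ph t).coeff (m + 2) * ((m + 2).descFactorial 2 : ℂ) *
        ((E - (m + 2)).descFactorial 2 : ℂ) +
      k 2 * (ph t).coeff (m + 3) * ((m + 3).descFactorial 3 : ℂ) *
        ((E - (m + 3)).descFactorial 1 : ℂ) +
      k 3 * (ph t).coeff (m + 4) * ((m + 4).descFactorial 4 : ℂ) *
        ((E - (m + 4)).descFactorial 0 : ℂ) = 0 := by
    intro m hm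
    have h3 := h2 m hm
    rw [Fin.sum_univ_four] at h3
    exact h3
  have d1 : ∀ a : ℕ, ((a.descFactorial 1 : ℕ) : ℂ) = a := by
    intro a; simp [Nat.descFactorial]
  have d2 : ∀ a : ℕ, ((a.descFactorial 2 : ℕ) : ℂ) = a * (a - 1) := by
    intro a
    rcases a with _ | a
    · simp [Nat.descFactorial]
    · rw [Nat.descFactorial_succ, Nat.descFactorial_succ, Nat.descFactorial_zero]
      simp only [Nat.sub_zero, mul_one, Nat.add_sub_cancel]
      push_cast; ring
  have d3 : ∀ a : ℕ, ((a.descFactorial 3 : ℕ) : ℂ) = a * (a - 1) * (a - 2) := by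
    intro a
    rcases a with _ | _ | a
    · simp [Nat.descFactorial]
    · simp [Nat.descFactorial]
    · rw [Nat.descFactorial_succ, Nat.descFactorial_succ, Nat.descFactorial_succ,
        Nat.descFactorial_zero]
      simp only [Nat.sub_zero, mul_one, show a + 1 + 1 - 1 = a + 1 from rfl,
        show a + 1 + 1 - 2 = a from rfl]
      push_cast; ring
  have d4 : ∀ a : ℕ, ((a.descFactorial 4 : ℕ) : ℂ) = a * (a - 1) * (a - 2) * (a - 3) := by
    intro a
    rcases a with _ | _ | _ | a
    · simp [Nat.descFactorial]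
    · simp [Nat.descFactorial]
    · simp [Nat.descFactorial]
    · rw [Nat.descFactorial_succ, Nat.descFactorial_succ, Nat.descFactorial_succ,
        Nat.descFactorial_succ, Nat.descFactorial_zero]
      simp only [Nat.sub_zero, mul_one, show a + 1 + 1 + 1 - 1 = a + 2 from rfl,
        show a + 1 + 1 + 1 - 2 = a + 1 from rfl, show a + 1 + 1 + 1 - 3 = a from rfl]
      push_cast; ring
  have cN : ∀ a : ℕ, a ≤ N → ((N - a : ℕ) : ℂ) = N - a := fun a ha => Nat.cast_sub ha
  have hNp : ∀ a b : ℕ, (a * N + b : ℂ) = 0 → 1 ≤ a → False := by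
    intro a b h3 h4
    have h5 : ((a * N + b : ℕ) : ℂ) = (0 : ℕ) := by push_cast; exact h3
    have h6 : a * N + b = 0 := by exact_mod_cast h5
    have : 1 * 6 ≤ a * N := Nat.mul_le_mul h4 hN6
    omega
  rcases hN with hNE | hNE
  · subst hNE
    have t1 := hsum (N - 4) (by omega)
    rw [show N - 4 + 1 = N - 3 by omega, show N - 4 + 2 = N - 2 by omega,
      show N - 4 + 3 = N - 1 by omega, show N - 4 + 4 = N by omega,
      show N - (N - 2) = 2 by omega, f3, f2, hφN1, hφN, d2, d4, d2,
      Nat.descFactorial_zero, cN 2 (by omega)] at t1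
    have t2 := hsum (N - 6) (by omega)
    rw [show N - 6 + 1 = N - 5 by omega, show N - 6 + 2 = N - 4 by omega,
      show N - 6 + 3 = N - 3 by omega, show N - 6 + 4 = N - 2 by omega,
      show N - (N - 4) = 4 by omega, f5, f4, f3, f2, d2, d4, d2,
      Nat.descFactorial_zero, cN 2 (by omega), cN 4 (by omega)] at t2
    have f6 : (ph t).coeff (N - 6) = -(N * (N - 4) * (N - 5) * ρ ^ 3) / 384 := by
      have h3 := hrec3 (N - 6) (by omega)
      have s4 : N - 6 + 2 = N - 4 := by omega
      rw [s4, cN 6 (by omega), f4] at h3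
      apply mul_left_cancel₀ g3
      push_cast at h3
      linear_combination (-1 / 12) * h3
    have t3 := hsum (N - 5) (by omega)
    rw [show N - 5 + 1 = N - 4 by omega, show N - 5 + 2 = N - 3 by omega,
      show N - 5 + 3 = N - 2 by omega, show N - 5 + 4 = N - 1 by omega,
      show N - (N - 4) = 4 by omega, show N - (N - 2) = 2 by omega, f4, f3, f2, hφN1, d1, d3, d3, d1,
      cN 2 (by omega), cN 4 (by omega)] at t3
    have t4 := hsum (N - 7) (by omega)
    rw [show N - 7 + 1 = N - 6 by omega, show N - 7 + 2 = N - 5 by omega,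
      show N - 7 + 3 = N - 4 by omega, show N - 7 + 4 = N - 3 by omega,
      show N - (N - 6) = 6 by omega, show N - (N - 4) = 4 by omega, f6, f5, f4, f3, d1, d3, d3, d1,
      cN 6 (by omega), cN 4 (by omega)] at t4
    push_cast at t1 t2 t3 t4
    have u1 : 2 * (N - 1) * k 3 = ρ * k 1 := by
      have h3 : (N * (N - 2) * (N - 3) : ℂ) * (2 * (N - 1) * k 3 - ρ * k 1) = 0 := by
        linear_combination 2 * t1
      exact sub_eq_zero.mp (dv (mul_ne_zero (mul_ne_zero hNc g2) g3) h3)
    have u2 : 3 * ρ * k 1 = 2 * (N - 2) * k 3 := by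
      have h3 : (N * ρ * (N - 3) * (N - 4) * (N - 5) : ℂ) * (3 * ρ * k 1 - 2 * (N - 2) * k 3) = 0 := by
        linear_combination 8 * t2
      exact sub_eq_zero.mp (dv (mul_ne_zero (mul_ne_zero (mul_ne_zero (mul_ne_zero hNc hρ0) g3) g4)
        g5) h3)
    have k3 : k 3 = 0 := by
      have h3 : (4 * N - 2 : ℂ) * k 3 = 0 := by linear_combination 3 * u1 + u2
      refine dv ?_ h3
      intro h4
      have h5 : ((4 * N : ℕ) : ℂ) = (2 : ℕ) := by push_cast; linear_combination h4
      have h6 : 4 * N = 2 := by exact_mod_cast h5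
      omega
    have k1 : k 1 = 0 := by
      rw [k3, mul_zero] at u1
      exact dv hρ0 u1.symm
    have u3 : 3 * ρ * k 0 = 2 * (N - 2) * k 2 := by
      have h3 : (N * ρ * (N - 3) * (N - 4) : ℂ) * (3 * ρ * k 0 - 2 * (N - 2) * k 2) = 0 := by
        linear_combination 4 * t3
      exact sub_eq_zero.mp (dv (mul_ne_zero (mul_ne_zero (mul_ne_zero hNc hρ0) g3) g4) h3)
    have g6 := cst N 6 (by omega)
    push_cast at g6
    have u4 : 5 * ρ * k 0 = 2 * (N - 3) * k 2 := by
      have h3 : (N * ρ ^ 2 * (N - 4) * (N - 5) * (N - 6) : ℂ) *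
          (5 * ρ * k 0 - 2 * (N - 3) * k 2) = 0 := by
        linear_combination -16 * t4
      exact sub_eq_zero.mp (dv (mul_ne_zero (mul_ne_zero (mul_ne_zero (mul_ne_zero hNc
        (pow_ne_zero 2 hρ0)) g4) g5) g6) h3)
    have k2 : k 2 = 0 := by
      have h3 : (4 * N - 2 : ℂ) * k 2 = 0 := by linear_combination 3 * u4 - 5 * u3
      refine dv ?_ h3
      intro h4
      have h5 : ((4 * N : ℕ) : ℂ) = (2 : ℕ) := by push_cast; linear_combination h4
      have h6 : 4 * N = 2 := by exact_mod_cast h5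
      omega
    have k0 : k 0 = 0 := by
      rw [k2, mul_zero] at u3
      have h3 : (3 * ρ) * k 0 = 0 := u3
      exact dv (mul_ne_zero (by norm_num) hρ0) h3
    funext r
    fin_cases r
    · exact k0
    · exact k1
    · exact k2
    · exact k3
  · have t1 := hsum (N - 3) (by omega)
    rw [show N - 3 + 1 = N - 2 by omega, show N - 3 + 2 = N - 1 by omega,
      show N - 3 + 3 = N by omega, show N - 3 + 4 = N + 1 by omega,
      show E - (N - 2) = 3 by omega, show E - N = 1 by omega, f2, hφN1, hφN,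
      hφbig (N + 1) (by omega), d1, d3, d3, d1, cN 2 (by omega)] at t1
    have t2 := hsum (N - 5) (by omega)
    rw [show N - 5 + 1 = N - 4 by omega, show N - 5 + 2 = N - 3 by omega,
      show N - 5 + 3 = N - 2 by omega, show N - 5 + 4 = N - 1 by omega,
      show E - (N - 4) = 5 by omega, show E - (N - 2) = 3 by omega, f4, f3, f2, hφN1, d1, d3, d3,
      d1, cN 2 (by omega), cN 4 (by omega)] at t2
    have t3 := hsum (N - 4) (by omega)
    rw [show N - 4 + 1 = N - 3 by omega, show N - 4 + 2 = N - 2 by omega,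
      show N - 4 + 3 = N - 1 by omega, show N - 4 + 4 = N by omega,
      show E - (N - 2) = 3 by omega, f3, f2, hφN1, hφN, d2, d4, d2,
      Nat.descFactorial_zero, cN 2 (by omega)] at t3
    have t4 := hsum (N - 6) (by omega)
    rw [show N - 6 + 1 = N - 5 by omega, show N - 6 + 2 = N - 4 by omega,
      show N - 6 + 3 = N - 3 by omega, show N - 6 + 4 = N - 2 by omega,
      show E - (N - 4) = 5 by omega, f5, f4, f3, f2, d2, d4, d2,
      Nat.descFactorial_zero, cN 2 (by omega), cN 4 (by omega)] at t4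
    push_cast at t1 t2 t3 t4
    have u1 : 2 * (N - 1) * k 2 = 3 * ρ * k 0 := by
      have h3 : (N * (N - 2) : ℂ) * (2 * (N - 1) * k 2 - 3 * ρ * k 0) = 0 := by
        linear_combination 2 * t1
      exact sub_eq_zero.mp (dv (mul_ne_zero hNc g2) h3)
    have u2 : 5 * ρ * k 0 = 2 * (N - 2) * k 2 := by
      have h3 : (N * ρ * (N - 3) * (N - 4) : ℂ) * (5 * ρ * k 0 - 2 * (N - 2) * k 2) = 0 := by
        linear_combination (8 / 3) * t2
      exact sub_eq_zero.mp (dv (mul_ne_zero (mul_ne_zero (mul_ne_zero hNc hρ0) g3) g4) h3)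
    have k2 : k 2 = 0 := by
      have h3 : (4 * N + 2 : ℂ) * k 2 = 0 := by linear_combination 5 * u1 + 3 * u2
      refine dv ?_ h3
      intro h4
      exact hNp 4 2 (by push_cast; exact h4) (by norm_num)
    have k0 : k 0 = 0 := by
      rw [k2, mul_zero] at u1
      exact dv (mul_ne_zero (by norm_num) hρ0) u1.symm
    have u3 : 2 * (N - 1) * k 3 = 3 * ρ * k 1 := by
      have h3 : (N * (N - 2) * (N - 3) : ℂ) * (2 * (N - 1) * k 3 - 3 * ρ * k 1) = 0 := by
        linear_combination 2 * t3
      exact sub_eq_zero.mp (dv (mul_ne_zero (mul_ne_zero hNc g2) g3) h3)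
    have u4 : 5 * ρ * k 1 = 2 * (N - 2) * k 3 := by
      have h3 : (N * ρ * (N - 3) * (N - 4) * (N - 5) : ℂ) *
          (5 * ρ * k 1 - 2 * (N - 2) * k 3) = 0 := by
        linear_combination 8 * t4
      exact sub_eq_zero.mp (dv (mul_ne_zero (mul_ne_zero (mul_ne_zero (mul_ne_zero hNc hρ0) g3) g4)
        g5) h3)
    have k3 : k 3 = 0 := by
      have h3 : (4 * N + 2 : ℂ) * k 3 = 0 := by linear_combination 5 * u3 + 3 * u4
      refine dv ?_ h3
      intro h4
      exact hNp 4 2 (by push_cast; exact h4) (by norm_num)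
    have k1 : k 1 = 0 := by
      rw [k3, mul_zero] at u3
      exact dv (mul_ne_zero (by norm_num) hρ0) u3.symm
    funext r
    fin_cases r
    · exact k0
    · exact k1
    · exact k2
    · exact k3

end

end Pool.Agent.Helper41.Hk
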